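import Pool.Agent.Y746.OM.Stm2

set_option autoImplicit false

/-!
Project OJ (helper746): omega theorems for `S(t)` and for the mean value of `log |ζ|` over horizontal segments
(`π S₁(t)` up to a bounded term), without any hypothesis. Statements.
-/

namespace Pool.Agent.Y746.OJ

open Finset Filter Topology MeasureTheory
open H370 (zset mult NN Zf zz)
open Pool.Agent.Y746.OM

noncomputable section

/-- the logarithmic derivative of zeta -/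
def LD (s : ℂ) : ℂ := deriv riemannZeta s / riemannZeta s

/-- the point `σ + iy` -/
def pt (σ y : ℝ) : ℂ := (σ : ℂ) + (y : ℂ) * Complex.I

/-- the kernels: entire, real on the real line, of size `M0` there and `M` in the strip `|Im z| ≤ 1` -/
def KerOK (V : ℂ → ℂ) (M0 M : ℝ) : Prop :=
  Differentiable ℂ V ∧ (∀ x : ℝ, (V (x : ℂ)).im = 0) ∧
  (∀ x : ℝ, ‖V (x : ℂ)‖ ≤ M0 * Real.exp (-x ^ 2 / 4)) ∧
  (∀ z : ℂ, |z.im| ≤ 1 → ‖V z‖ ≤ M * Real.exp (-z.re ^ 2 / 4))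

/-- the Fourier transform -/
def VH (V : ℂ → ℂ) (ξ : ℝ) : ℂ := ∫ v : ℝ, V (v : ℂ) * Complex.exp (-(ξ : ℂ) * (v : ℂ) * Complex.I)

/-- the zeros to the right of `σ` -/
def ZR (U1 U2 σ : ℝ) : Finset ℂ := by
  classical
  exact (Zf riemannZeta U1 U2).filter (fun s => σ < s.re)

/-- `∫ log |ζ|` over a horizontal segment -/
def J0 (y : ℝ) : ℝ := ∫ σ in (1 / 2 : ℝ)..(3 / 2), Real.log ‖riemannZeta (pt σ y)‖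

/-- the argument, up to a bounded term -/
def S0 (y : ℝ) : ℝ := -(1 / Real.pi) * ∫ σ in (1 / 2 : ℝ)..(3 / 2), (LD (pt σ y)).im

/-- `J(y) = ∫_{1/2}^∞ log |ζ(σ + iy)| dσ` -/
def J (y : ℝ) : ℝ := ∫ σ in Set.Ioi (1 / 2 : ℝ), Real.log ‖riemannZeta (pt σ y)‖

/-- `S(y) = - (1/π) ∫_{1/2}^∞ Im (ζ'/ζ)(σ + iy) dσ` -/
def S (y : ℝ) : ℝ := -(1 / Real.pi) * ∫ σ in Set.Ioi (1 / 2 : ℝ), (LD (pt σ y)).im

/-- shift of the line of integration, for the logarithmic derivative -/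
def S_CT : Prop := ∃ C T0 : ℝ, 0 < C ∧ 10 ≤ T0 ∧ ∀ T : ℝ, T0 ≤ T →
  ∃ U1 U2 : ℝ, T ≤ U1 ∧ U1 ≤ T + 1 ∧ 2 * T - 1 ≤ U2 ∧ U2 ≤ 2 * T ∧
    ∀ (V : ℂ → ℂ) (M0 M : ℝ), 0 ≤ M0 → 0 ≤ M → KerOK V M0 M →
      ∀ t : ℝ, T + Real.log T ≤ t → t ≤ 2 * T - Real.log T →
      ∀ σ : ℝ, 1 / 2 ≤ σ → σ < 3 / 2 → (∀ s ∈ Zf riemannZeta U1 U2, s.re ≠ σ) →
      ‖(∫ y in U1..U2, LD (pt σ y) * V ((y - t : ℝ) : ℂ)) +
        (∑' n : ℕ, (ArithmeticFunction.vonMangoldt n : ℂ) * (n : ℂ) ^ (-(pt σ t)) *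
          VH V (Real.log n)) +
        2 * Real.pi * ∑ s ∈ ZR U1 U2 σ, (mult riemannZeta s : ℂ) *
          V (((s.im - t : ℝ) : ℂ) - ((s.re - σ : ℝ) : ℂ) * Complex.I)‖ ≤ C * M / T

/-- the logarithmic derivative is integrable over rectangles -/
def S_LI : Prop := ∀ U1 U2 : ℝ, 1 ≤ U1 →
  IntegrableOn (fun p : ℝ × ℝ => LD (pt p.1 p.2)) (Set.Icc (1 / 2 : ℝ) (3 / 2) ×ˢ Set.Icc U1 U2)

/-- integration by parts along a horizontal segment -/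
def S_JP : Prop := ∀ y : ℝ, 1 ≤ y → (∀ σ : ℝ, 1 / 2 ≤ σ → σ ≤ 3 / 2 → riemannZeta (pt σ y) ≠ 0) →
  J0 y = Real.log ‖riemannZeta (pt (3 / 2) y)‖ -
    ∫ σ in (1 / 2 : ℝ)..(3 / 2), (σ - 1 / 2) * (LD (pt σ y)).re

/-- the formula for `J0` -/
def S_JF : Prop := ∃ C T0 : ℝ, 0 < C ∧ 10 ≤ T0 ∧ ∀ T : ℝ, T0 ≤ T →
  ∃ U1 U2 : ℝ, T ≤ U1 ∧ U1 ≤ T + 1 ∧ 2 * T - 1 ≤ U2 ∧ U2 ≤ 2 * T ∧
    ∀ (V : ℂ → ℂ) (M0 M : ℝ), 0 ≤ M0 → 0 ≤ M → KerOK V M0 M →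
      ∀ t : ℝ, T + Real.log T ≤ t → t ≤ 2 * T - Real.log T →
      |(∫ y in U1..U2, J0 y * (V ((y - t : ℝ) : ℂ)).re) -
        (∑' n : ℕ, ArithmeticFunction.vonMangoldt n / (Real.sqrt n * Real.log n ^ 2) *
          ((n : ℂ) ^ (-((t : ℂ) * Complex.I)) * VH V (Real.log n)).re) -
        2 * Real.pi * ∑ s ∈ ZR U1 U2 (1 / 2), (mult riemannZeta s : ℝ) *
          ∫ w in (0 : ℝ)..(s.re - 1 / 2), ((s.re - 1 / 2) - w) *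
            (V (((s.im - t : ℝ) : ℂ) - (w : ℂ) * Complex.I)).re| ≤ C * (M0 + M / T)

/-- the formula for `S0` -/
def S_SF : Prop := ∃ C T0 : ℝ, 0 < C ∧ 10 ≤ T0 ∧ ∀ T : ℝ, T0 ≤ T →
  ∃ U1 U2 : ℝ, T ≤ U1 ∧ U1 ≤ T + 1 ∧ 2 * T - 1 ≤ U2 ∧ U2 ≤ 2 * T ∧
    ∀ (V : ℂ → ℂ) (M0 M : ℝ), 0 ≤ M0 → 0 ≤ M → KerOK V M0 M →
      ∀ t : ℝ, T + Real.log T ≤ t → t ≤ 2 * T - Real.log T →
      |(∫ y in U1..U2, S0 y * (V ((y - t : ℝ) : ℂ)).re) -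
        (1 / Real.pi) * (∑' n : ℕ, ArithmeticFunction.vonMangoldt n / (Real.sqrt n * Real.log n) *
          ((n : ℂ) ^ (-((t : ℂ) * Complex.I)) * VH V (Real.log n)).im) -
        2 * ∑ s ∈ ZR U1 U2 (1 / 2), (mult riemannZeta s : ℝ) *
          ∫ w in (0 : ℝ)..(s.re - 1 / 2),
            (V (((s.im - t : ℝ) : ℂ) - (w : ℂ) * Complex.I)).im| ≤ C * (M0 + M / T)

/-- properties of the kernel of project OM -/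
def S_KV : Prop := ∃ C : ℝ, 0 < C ∧ ∀ B : ℝ, 1 ≤ B →
  KerOK (KB B) B (C * B * Real.exp B) ∧
  (∀ n : ℕ, 1 ≤ n → VH (KB B) (Real.log n) = ((Real.sqrt (2 * Real.pi) *
    (GB B n + ∫ u in (0 : ℝ)..B, (1 - u / B) * Real.exp (-(u + Real.log n) ^ 2 / 2)) : ℝ) : ℂ)) ∧
  (∀ z : ℂ, |z.im| * B ≤ 1 → |(KB B z).im| ≤ C * |z.im| * B ^ 2 * Real.exp (-z.re ^ 2 / 4)) ∧
  (∀ z : ℂ, |z.im| * B ≤ 1 → |(KB B z).re| ≤ C * B * Real.exp (-z.re ^ 2 / 4)) ∧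
  (∀ z : ℂ, |z.im| ≤ 1 / 2 → ‖KB B z‖ ≤ 2 * B * Real.exp (B / 2) * Real.exp (-z.re ^ 2 / 2))

/-- the formula for `J0`, with the kernel of project OM -/
def S_JK : Prop := ∃ C T0 : ℝ, 0 < C ∧ 10 ≤ T0 ∧ ∀ T : ℝ, T0 ≤ T →
  ∃ U1 U2 : ℝ, T ≤ U1 ∧ U1 ≤ T + 1 ∧ 2 * T - 1 ≤ U2 ∧ U2 ≤ 2 * T ∧
    ∀ t : ℝ, T + Real.log T ≤ t → t ≤ 2 * T - Real.log T →
      |(∫ y in U1..U2, J0 y * KR (8 * Real.log (Real.log T)) (y - t)) -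
        Real.sqrt (2 * Real.pi) * ∑ n ∈ Icc 2 ⌊T ^ (1 / 8 : ℝ)⌋₊,
          ArithmeticFunction.vonMangoldt n / (Real.sqrt n * Real.log n ^ 2) *
            GB (8 * Real.log (Real.log T)) n * Real.cos (t * Real.log n)| ≤
      C * (Real.log T) ^ (1 / 3 : ℝ) * (Real.log (Real.log T)) ^ 3 +
      C * (Real.log T) ^ 5 * ∑ s ∈ (Zf riemannZeta T (2 * T)).filter
        (fun s => (Real.log T) ^ (-(1 / 3) : ℝ) ≤ |s.re - 1 / 2|),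
        (mult riemannZeta s : ℝ) * Real.exp (-(s.im - t) ^ 2 / 2)

/-- the formula for `S0`, with the kernel of project OM -/
def S_SK : Prop := ∃ C T0 : ℝ, 0 < C ∧ 10 ≤ T0 ∧ ∀ T : ℝ, T0 ≤ T →
  ∃ U1 U2 : ℝ, T ≤ U1 ∧ U1 ≤ T + 1 ∧ 2 * T - 1 ≤ U2 ∧ U2 ≤ 2 * T ∧
    ∀ t : ℝ, T + Real.log T ≤ t → t ≤ 2 * T - Real.log T →
    ∀ δ : ℝ, 0 < δ → δ ≤ (Real.log T) ^ (-(1 / 3) : ℝ) →
      |(∫ y in U1..U2, S0 y * KR (8 * Real.log (Real.log T)) (y - t)) +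
        Real.sqrt (2 * Real.pi) / Real.pi * ∑ n ∈ Icc 2 ⌊T ^ (1 / 8 : ℝ)⌋₊,
          ArithmeticFunction.vonMangoldt n / (Real.sqrt n * Real.log n) *
            GB (8 * Real.log (Real.log T)) n * Real.sin (t * Real.log n)| ≤
      C * (1 + δ ^ 2 * Real.log T) * (Real.log (Real.log T)) ^ 2 +
      C * (Real.log T) ^ 5 * ∑ s ∈ (Zf riemannZeta T (2 * T)).filter
        (fun s => δ ≤ |s.re - 1 / 2|),
        (mult riemannZeta s : ℝ) * Real.exp (-(s.im - t) ^ 2 / 2)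

/-- the segments to the right of the line `3/2` contribute a bounded amount -/
def S_INF : Prop := ∃ C : ℝ, 0 < C ∧ ∀ y : ℝ, 1 ≤ y →
  (∀ σ : ℝ, 1 / 2 ≤ σ → σ ≤ 3 / 2 → riemannZeta (pt σ y) ≠ 0) →
    |J y - J0 y| ≤ C ∧ |S y - S0 y| ≤ C

/-- crude bounds -/
def S_BD : Prop := ∃ C : ℝ, 0 < C ∧ ∀ y : ℝ, 2 ≤ y →
  (∀ σ : ℝ, 1 / 2 ≤ σ → σ ≤ 3 / 2 → riemannZeta (pt σ y) ≠ 0) →
    |J0 y| ≤ C * Real.log y ∧ |S0 y| ≤ C * Real.log y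

end

end Pool.Agent.Y746.OJ
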