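import Pool.Agent.Y746.OM.Asm9
import Pool.Agent.Y746.OJ.Stm

set_option autoImplicit false

/-! Assembly, part 1: averages with the resonator. -/

namespace Pool.Agent.Y746.OJ

open Finset Filter Topology MeasureTheory
open H370 (zset mult NN Zf zz)
open Pool.Agent.Y746.OM

noncomputable section

/-- a trigonometric sum -/
def DK (a : ℕ → ℝ) (X : ℕ) (ψ t : ℝ) : ℝ := ∑ n ∈ Icc 2 X, a n * Real.cos (t * Real.log n - ψ)

lemma DK_cont (a : ℕ → ℝ) (X : ℕ) (ψ : ℝ) : Continuous (DK a X ψ) := by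
  unfold DK
  fun_prop

open Classical in
theorem avgK (hPR : S_PR) (P : Finset ℕ) (r : ℕ → ℝ) (φ0 ψ : ℝ) (Q : ℝ) (hP : ∀ p ∈ P, p.Prime)
    (hr : ∀ p ∈ P, 0 ≤ r p) (hQ : 1 ≤ Q) {A B' : ℝ} (hAB : A ≤ B') (a : ℕ → ℝ) (X : ℕ)
    (ha : ∀ n ∈ Icc 2 X, |a n| ≤ 6) (ha0 : ∀ n, ¬ IsPrimePow n → a n = 0)
    (hPX : ∀ p ∈ P, p ≤ X) :
    |(∫ t in A..B', ‖RS P Q (yc r (fun _ => φ0)) ((t : ℂ) * Complex.I)‖ ^ 2 * DK a X ψ t) -
        (B' - A) * ∑ p ∈ P, a p * (r p * Real.cos (φ0 - ψ) * N1 P r Q p)| ≤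
      12 * (X : ℝ) ^ 2 * Q ^ 2 * N0 P r Q := by
  set φ : ℕ → ℝ := fun _ => φ0 with hφ
  set W : ℝ → ℝ := fun t => ‖RS P Q (yc r φ) ((t : ℂ) * Complex.I)‖ ^ 2 with hW
  have hWc : Continuous W := W_cont P Q _ hP
  have hN0 := N0_nonneg P r Q
  obtain ⟨-, hpr⟩ := hPR P r φ Q A B' hP hr hQ hAB
  have e1 : ∫ t in A..B', W t * DK a X ψ t = ∑ n ∈ Icc 2 X,
        a n * ∫ t in A..B', W t * Real.cos (t * Real.log n - ψ) := by
    have e0 : ∀ t : ℝ, W t * DK a X ψ t = ∑ n ∈ Icc 2 X,
        a n * (W t * Real.cos (t * Real.log n - ψ)) := by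
      intro t
      unfold DK
      rw [Finset.mul_sum]
      refine Finset.sum_congr rfl fun n _ => ?_
      ring
    simp_rw [e0]
    rw [intervalIntegral.integral_finsetSum (fun n _ =>
        Continuous.intervalIntegrable (by fun_prop) _ _)]
    refine Finset.sum_congr rfl fun n _ => ?_
    rw [intervalIntegral.integral_const_mul]
  have hsub : P ⊆ Icc 2 X := by
    intro p hp
    rw [Finset.mem_Icc]
    exact ⟨(hP p hp).two_le, hPX p hp⟩
  have e2 : (B' - A) * ∑ p ∈ P, a p * (r p * Real.cos (φ0 - ψ) * N1 P r Q p) =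
      ∑ n ∈ Icc 2 X, a n * (if n ∈ P then (B' - A) *
        (r n * Real.cos (φ n - ψ) * N1 P r Q n) else 0) := by
    rw [← Finset.sum_subset hsub (fun n _ hn => by rw [if_neg hn, mul_zero]), Finset.mul_sum]
    refine Finset.sum_congr rfl fun p hp => ?_
    rw [if_pos hp]
    ring
  have e3 : (∑ n ∈ Icc 2 X, a n * ∫ t in A..B', W t * Real.cos (t * Real.log n - ψ)) -
      (∑ n ∈ Icc 2 X, a n * (if n ∈ P then (B' - A) *
        (r n * Real.cos (φ n - ψ) * N1 P r Q n) else 0)) =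
      ∑ n ∈ Icc 2 X, a n * ((∫ t in A..B', W t * Real.cos (t * Real.log n - ψ)) -
        (if n ∈ P then (B' - A) * (r n * Real.cos (φ n - ψ) * N1 P r Q n) else 0)) := by
    simp_rw [mul_sub, Finset.sum_sub_distrib]
  change |(∫ t in A..B', W t * DK a X ψ t) - _| ≤ _
  rw [e1, e2, e3]
  refine (Finset.abs_sum_le_sum_abs _ _).trans ?_
  have hterm : ∀ n ∈ Icc 2 X, |a n * ((∫ t in A..B', W t * Real.cos (t * Real.log n - ψ)) -
        (if n ∈ P then (B' - A) * (r n * Real.cos (φ n - ψ) * N1 P r Q n) else 0))| ≤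
      12 * X * Q ^ 2 * N0 P r Q := by
    intro n hn
    have hn' := hn
    rw [Finset.mem_Icc] at hn
    rw [abs_mul]
    by_cases hpp : IsPrimePow n
    · have h1 := hpr n ψ hpp
      have h2 := ha n hn'
      have hnX : (n : ℝ) ≤ X := by exact_mod_cast hn.2
      calc |a n| * |_| ≤ 6 * (2 * n * Q ^ 2 * N0 P r Q) :=
            mul_le_mul h2 h1 (abs_nonneg _) (by norm_num)
        _ ≤ 6 * (2 * X * Q ^ 2 * N0 P r Q) := by gcongr
        _ = _ := by ring
    · rw [ha0 n hpp, abs_zero, zero_mul]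
      positivity
  refine (Finset.sum_le_sum hterm).trans ?_
  rw [Finset.sum_const, nsmul_eq_mul, Nat.card_Icc]
  have h1 : ((X + 1 - 2 : ℕ) : ℝ) ≤ X := by exact_mod_cast (by omega : X + 1 - 2 ≤ X)
  calc ((X + 1 - 2 : ℕ) : ℝ) * (12 * X * Q ^ 2 * N0 P r Q) ≤ X * (12 * X * Q ^ 2 * N0 P r Q) := by
        gcongr
    _ = _ := by ring

/-- no zero on the horizontal segment -/
def NZ (y : ℝ) : Prop := ∀ σ : ℝ, 1 / 2 ≤ σ → σ ≤ 3 / 2 → riemannZeta (pt σ y) ≠ 0

lemma pt_re (σ y : ℝ) : (pt σ y).re = σ := by unfold pt; simp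

lemma pt_im (σ y : ℝ) : (pt σ y).im = y := by unfold pt; simp

lemma NZ_null : volume {y : ℝ | 1 < y ∧ ¬ NZ y} = 0 := by
  have hsub : {y : ℝ | 1 < y ∧ ¬ NZ y} ⊆ ⋃ n : ℕ, Complex.im '' (Zf riemannZeta 1 n : Set ℂ) := by
    rintro y ⟨hy, hn⟩
    unfold NZ at hn
    push Not at hn
    obtain ⟨σ, h1, h2, h3⟩ := hn
    obtain ⟨n, hn⟩ := exists_nat_ge y
    refine Set.mem_iUnion.2 ⟨n, pt σ y, ?_, pt_im σ y⟩
    rw [Finset.mem_coe, H370.mem_Zf H370.good_zeta (by norm_num)]
    refine ⟨by rw [pt_re]; linarith, ?_, by rw [pt_im]; exact hy, by rw [pt_im]; exact hn, h3⟩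
    by_contra hc
    push Not at hc
    exact riemannZeta_ne_zero_of_one_le_re hc h3
  refine measure_mono_null hsub ?_
  refine (Set.countable_iUnion fun n => ?_).measure_zero _
  exact ((Finset.finite_toSet _).image _).countable

/-- the smoothed function -/
def FH (H : ℝ → ℝ) (U1 U2 B t : ℝ) : ℝ := ∫ y in U1..U2, H y * KR B (y - t)

/-- from a large average to a large set of large values -/
lemma avg_le {H : ℝ → ℝ} {T U1 U2 B L CH κ t M : ℝ} (hHm : Measurable H)
    (hT : 2 ≤ T) (hL : L = Real.log T) (hL1 : 1 ≤ L) (hU1 : T ≤ U1) (hU12 : U1 ≤ U2) (hU2 : U2 ≤ 2 * T)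
    (hCH : 0 < CH) (hH : ∀ y, T ≤ y → y ≤ 2 * T → NZ y → |H y| ≤ CH * L)
    (hKc : Continuous (KR B)) (hK : ∀ x, 0 ≤ KR B x ∧ KR B x ≤ B * Real.exp (-x ^ 2 / 2))
    (hKi : Integrable (KR B)) (hκ : κ = ∫ x, KR B x) (hBL : B ≤ L) (hM : 0 ≤ M)
    (ε : ℝ) (hε : ε = 1 ∨ ε = -1)
    (hvol : volume {τ : ℝ | |τ - t| ≤ L ∧ M < ε * H τ} ≤ ENNReal.ofReal (L ^ (-(4 : ℝ)))) :
    ε * FH H U1 U2 B t ≤ κ * M + 33 * CH := by
  set E : Set ℝ := {τ : ℝ | |τ - t| ≤ L ∧ M < ε * H τ} with hE
  have hEm : MeasurableSet E := by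
    refine MeasurableSet.inter ?_ ?_
    · exact measurableSet_le
        (show Continuous fun τ : ℝ => |τ - t| by fun_prop).measurable measurable_const
    · exact measurableSet_lt measurable_const (hHm.const_mul ε)
  have hKc' : Continuous fun y : ℝ => KR B (y - t) := hKc.comp (by fun_prop)
  have hKi' : Integrable fun y : ℝ => KR B (y - t) := hKi.comp_sub_right t
  have hgi : Integrable fun y : ℝ => Real.exp (-(y - t) ^ 2 / 4) := by
    have h1 : Integrable fun y : ℝ => Real.exp (-(1 / 4 : ℝ) * y ^ 2) :=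
      integrable_exp_neg_mul_sq (by norm_num)
    have h2 := h1.comp_sub_right t
    refine h2.congr (Eventually.of_forall fun y => ?_)
    show Real.exp (-(1 / 4 : ℝ) * (y - t) ^ 2) = Real.exp (-(y - t) ^ 2 / 4)
    congr 1; ring
  have hgint : ∫ y : ℝ, Real.exp (-(y - t) ^ 2 / 4) ≤ 4 := by
    have e : (fun y : ℝ => Real.exp (-(y - t) ^ 2 / 4)) =
        fun y : ℝ => (fun x : ℝ => Real.exp (-(1 / 4 : ℝ) * x ^ 2)) (y - t) := by
      funext y
      show _ = Real.exp (-(1 / 4 : ℝ) * (y - t) ^ 2)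
      congr 1; ring
    rw [e, integral_sub_right_eq_self (fun x : ℝ => Real.exp (-(1 / 4 : ℝ) * x ^ 2)) t,
      integral_gaussian]
    rw [Real.sqrt_le_left (by norm_num)]
    have := Real.pi_lt_d2
    norm_num
    linarith
  have hεabs : ∀ x : ℝ, ε * x ≤ |x| := by
    intro x
    rcases hε with h | h <;> rw [h]
    · rw [one_mul]; exact le_abs_self x
    · rw [neg_one_mul]; exact neg_le_abs x
  have hEfin : volume E ≠ ⊤ := ne_top_of_le_ne_top ENNReal.ofReal_ne_top hvol
  have hEr : volume.real E ≤ L ^ (-(4 : ℝ)) := by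
    have h0 : 0 ≤ L ^ (-(4 : ℝ)) := by positivity
    exact ENNReal.toReal_le_of_le_ofReal h0 hvol
  -- the majorant
  set g : ℝ → ℝ := fun y => M * KR B (y - t) + CH * L * L * E.indicator (fun _ => 1) y +
    4 * CH * Real.exp (-(y - t) ^ 2 / 4) with hg
  have hgI : Integrable g := by
    refine (((hKi'.const_mul M)).add (Integrable.const_mul ?_ _)).add (hgi.const_mul _)
    exact (integrable_indicator_iff hEm).2 (integrableOn_const hEfin)
  have hg0 : ∀ y, 0 ≤ g y := by
    intro y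
    have a1 := (hK (y - t)).1
    have a2 : 0 ≤ E.indicator (fun _ => (1 : ℝ)) y := Set.indicator_nonneg (fun _ _ => zero_le_one) _
    have : 0 ≤ L := by linarith
    positivity
  have hpt : ∀ y, T ≤ y → y ≤ 2 * T → NZ y → ε * (H y * KR B (y - t)) ≤ g y := by
    intro y h1 h2 h3
    have a0 := hH y h1 h2 h3
    obtain ⟨a1, a2⟩ := hK (y - t)
    have a3 : ε * H y ≤ CH * L := (hεabs _).trans a0
    have e1 : ε * (H y * KR B (y - t)) = (ε * H y) * KR B (y - t) := by ring
    have a4 : 0 ≤ 4 * CH * Real.exp (-(y - t) ^ 2 / 4) := by positivity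
    have a5 : 0 ≤ E.indicator (fun _ => (1 : ℝ)) y := Set.indicator_nonneg (fun _ _ => zero_le_one) _
    have a6 : 0 ≤ CH * L * L * E.indicator (fun _ => 1) y := by
      have : 0 ≤ L := by linarith
      positivity
    have a7 : 0 ≤ M * KR B (y - t) := mul_nonneg hM a1
    rw [e1]
    show _ ≤ M * KR B (y - t) + CH * L * L * E.indicator (fun _ => 1) y +
      4 * CH * Real.exp (-(y - t) ^ 2 / 4)
    by_cases hyt : |y - t| ≤ L
    · by_cases hyE : M < ε * H y
      · have hmem : y ∈ E := ⟨hyt, hyE⟩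
        rw [Set.indicator_of_mem hmem]
        have b1 : KR B (y - t) ≤ L := by
          refine a2.trans ?_
          have : Real.exp (-(y - t) ^ 2 / 2) ≤ 1 := by
            rw [Real.exp_le_one_iff]; nlinarith [sq_nonneg (y - t)]
          calc B * Real.exp (-(y - t) ^ 2 / 2) ≤ L * Real.exp (-(y - t) ^ 2 / 2) := by gcongr
            _ ≤ L * 1 := by gcongr
            _ = L := mul_one L
        have b2 : ε * H y * KR B (y - t) ≤ CH * L * L := by
          calc ε * H y * KR B (y - t) ≤ CH * L * KR B (y - t) := by gcongr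
            _ ≤ CH * L * L := by gcongr
        linarith
      · push Not at hyE
        have b2 : ε * H y * KR B (y - t) ≤ M * KR B (y - t) := by gcongr
        linarith
    · push Not at hyt
      have b1 : ε * H y * KR B (y - t) ≤ CH * L * (L * Real.exp (-(y - t) ^ 2 / 2)) := by
        calc ε * H y * KR B (y - t) ≤ CH * L * KR B (y - t) := by gcongr
          _ ≤ CH * L * (L * Real.exp (-(y - t) ^ 2 / 2)) := by
              gcongr
              refine a2.trans ?_
              gcongr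
      have b2 : L ^ 2 ≤ (y - t) ^ 2 := by
        rw [← sq_abs (y - t)]
        exact pow_le_pow_left₀ (by linarith) hyt.le 2
      have b3 : L ^ 2 * Real.exp (-(y - t) ^ 2 / 2) ≤ 4 * Real.exp (-(y - t) ^ 2 / 4) := by
        have c1 : Real.exp (-(y - t) ^ 2 / 2) = Real.exp (-(y - t) ^ 2 / 4) *
            Real.exp (-(y - t) ^ 2 / 4) := by rw [← Real.exp_add]; congr 1; ring
        have c2 : (y - t) ^ 2 / 4 * Real.exp (-(y - t) ^ 2 / 4) ≤ 1 := by
          have d1 := Real.add_one_le_exp ((y - t) ^ 2 / 4)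
          have d2 : Real.exp (-(y - t) ^ 2 / 4) * Real.exp ((y - t) ^ 2 / 4) = 1 := by
            rw [← Real.exp_add]
            have : -(y - t) ^ 2 / 4 + (y - t) ^ 2 / 4 = 0 := by ring
            rw [this, Real.exp_zero]
          have d3 := Real.exp_pos (-(y - t) ^ 2 / 4)
          calc (y - t) ^ 2 / 4 * Real.exp (-(y - t) ^ 2 / 4) ≤
              Real.exp ((y - t) ^ 2 / 4) * Real.exp (-(y - t) ^ 2 / 4) := by
                apply mul_le_mul_of_nonneg_right _ d3.le; linarith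
            _ = 1 := by rw [mul_comm]; exact d2
        rw [c1]
        have c3 := Real.exp_pos (-(y - t) ^ 2 / 4)
        calc L ^ 2 * (Real.exp (-(y - t) ^ 2 / 4) * Real.exp (-(y - t) ^ 2 / 4)) ≤
            (y - t) ^ 2 * (Real.exp (-(y - t) ^ 2 / 4) * Real.exp (-(y - t) ^ 2 / 4)) := by gcongr
          _ = 4 * ((y - t) ^ 2 / 4 * Real.exp (-(y - t) ^ 2 / 4)) * Real.exp (-(y - t) ^ 2 / 4) := by
              ring
          _ ≤ 4 * 1 * Real.exp (-(y - t) ^ 2 / 4) := by gcongr
          _ = _ := by ring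
      have b4 : CH * L * (L * Real.exp (-(y - t) ^ 2 / 2)) =
          CH * (L ^ 2 * Real.exp (-(y - t) ^ 2 / 2)) := by ring
      rw [b4] at b1
      have b5 := mul_le_mul_of_nonneg_left b3 hCH.le
      linarith
  -- the integral of the majorant
  have hgint2 : ∫ y, g y ≤ κ * M + 33 * CH := by
    have i1 : Integrable fun y : ℝ => M * KR B (y - t) := hKi'.const_mul M
    have i2 : Integrable fun y : ℝ => CH * L * L * E.indicator (fun _ => (1 : ℝ)) y :=
      Integrable.const_mul ((integrable_indicator_iff hEm).2 (integrableOn_const hEfin)) _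
    have i3 : Integrable fun y : ℝ => 4 * CH * Real.exp (-(y - t) ^ 2 / 4) := hgi.const_mul _
    have e1 : ∫ y, g y = (∫ y, M * KR B (y - t)) +
        (∫ y, CH * L * L * E.indicator (fun _ => (1 : ℝ)) y) +
        ∫ y, 4 * CH * Real.exp (-(y - t) ^ 2 / 4) := by
      have q1 := integral_add (i1.add i2) i3
      have q2 := integral_add i1 i2
      simp only [Pi.add_apply] at q1
      rw [← q2, ← q1]
    rw [e1, integral_const_mul, integral_const_mul, integral_const_mul,
      integral_sub_right_eq_self (KR B) t, ← hκ, integral_indicator hEm, setIntegral_const,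
      smul_eq_mul, mul_one]
    have a1 : CH * L * L * volume.real E ≤ CH := by
      have hL0 : 0 < L := by linarith
      calc CH * L * L * volume.real E ≤ CH * L * L * L ^ (-(4 : ℝ)) := by gcongr
        _ = CH * (L ^ (-(2 : ℝ))) := by
            have : L ^ (-(2 : ℝ)) = L * L * L ^ (-(4 : ℝ)) := by
              have e2 : L * L = L ^ (2 : ℝ) := by
                rw [show (2 : ℝ) = ((2 : ℕ) : ℝ) by norm_num, Real.rpow_natCast]; ring
              rw [e2, ← Real.rpow_add hL0]; norm_num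
            rw [this]; ring
        _ ≤ CH * 1 := by
            gcongr
            exact Real.rpow_le_one_of_one_le_of_nonpos hL1 (by norm_num)
        _ = CH := mul_one CH
    have a2 : 4 * CH * ∫ y : ℝ, Real.exp (-(y - t) ^ 2 / 4) ≤ 4 * CH * 4 := by gcongr
    nlinarith
  refine le_trans ?_ hgint2
  unfold FH
  by_cases hint : IntervalIntegrable (fun y => H y * KR B (y - t)) volume U1 U2
  · rw [← intervalIntegral.integral_const_mul]
    have h1 : ∫ y in U1..U2, ε * (H y * KR B (y - t)) ≤ ∫ y in U1..U2, g y := by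
      refine intervalIntegral.integral_mono_ae_restrict hU12 (hint.const_mul ε)
        hgI.intervalIntegrable ?_
      have hnull : ∀ᵐ y : ℝ, ¬ (1 < y ∧ ¬ NZ y) := by
        rw [ae_iff]
        simpa only [not_not] using NZ_null
      rw [Filter.EventuallyLE, ae_restrict_iff' measurableSet_Icc]
      filter_upwards [hnull] with y hy hy2
      refine hpt y (hU1.trans hy2.1) (hy2.2.trans hU2) ?_
      by_contra hc
      exact hy ⟨by linarith [hy2.1], hc⟩
    refine h1.trans ?_
    rw [intervalIntegral.integral_of_le hU12]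
    exact setIntegral_le_integral hgI (Eventually.of_forall hg0)
  · rw [intervalIntegral.integral_undef hint, mul_zero]
    exact integral_nonneg hg0

end

end Pool.Agent.Y746.OJ
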