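import Pool.Agent.Y746.OJ.A1

set_option autoImplicit false

/-! Assembly, part 2: many good centres. -/

namespace Pool.Agent.Y746.OJ

open Finset Filter Topology MeasureTheory
open H370 (zset mult NN Zf zz)
open Pool.Agent.Y746.OM

noncomputable section

lemma cmpK {W F D Z : ℝ → ℝ} (hW : Continuous W) (hF : Continuous F) (hD : Continuous D)
    (hZ : Continuous Z) (hW0 : ∀ t, 0 ≤ W t) {A B K1 K2 Bd : ℝ} (hAB : A ≤ B)
    (hK2 : 0 ≤ K2) (hFD : ∀ t, A ≤ t → t ≤ B → |F t - D t| ≤ K1 + K2 * Z t)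
    (hBd : ∫ t in A..B, W t * Z t ≤ Bd) :
    |(∫ t in A..B, W t * F t) - ∫ t in A..B, W t * D t| ≤
      K1 * (∫ t in A..B, W t) + K2 * Bd := by
  have hWF : Continuous fun t : ℝ => W t * F t := hW.mul hF
  have hWD : Continuous fun t : ℝ => W t * D t := hW.mul hD
  have hWZ : Continuous fun t : ℝ => W t * Z t := hW.mul hZ
  rw [← intervalIntegral.integral_sub (hWF.intervalIntegrable _ _)
    (hWD.intervalIntegrable _ _)]
  refine (intervalIntegral.abs_integral_le_integral_abs hAB).trans ?_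
  calc ∫ t in A..B, |W t * F t - W t * D t| ≤
      ∫ t in A..B, (K1 * W t + K2 * (W t * Z t)) := by
        refine intervalIntegral.integral_mono_on hAB
          ((hWF.sub hWD).abs.intervalIntegrable _ _)
          (((continuous_const.mul hW).add (continuous_const.mul hWZ)).intervalIntegrable _ _)
          fun t ht => ?_
        rw [← mul_sub, abs_mul, abs_of_nonneg (hW0 t)]
        have := mul_le_mul_of_nonneg_left (hFD t ht.1 ht.2) (hW0 t)
        refine this.trans (le_of_eq ?_)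
        ring
    _ = K1 * (∫ t in A..B, W t) + K2 * ∫ t in A..B, W t * Z t := by
        have c1 : Continuous fun t : ℝ => K1 * W t := continuous_const.mul hW
        have c2 : Continuous fun t : ℝ => K2 * (W t * Z t) := continuous_const.mul hWZ
        rw [intervalIntegral.integral_add (c1.intervalIntegrable _ _) (c2.intervalIntegrable _ _),
          intervalIntegral.integral_const_mul, intervalIntegral.integral_const_mul]
    _ ≤ _ := by gcongr

/-- the good centres -/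
def GK (F : ℝ → ℝ) (T L ε cR δ A B' : ℝ) : Set ℝ :=
  {t : ℝ | A ≤ t ∧ t ≤ B' ∧ cR ≤ ε * F t ∧
    ∀ s ∈ (Zf riemannZeta T (2 * T)).filter (fun s => δ ≤ |s.re - 1 / 2|), 3 * L < |s.im - t|}

lemma GK_meas {F : ℝ → ℝ} (hF : Continuous F) (T L ε cR δ A B' : ℝ) :
    MeasurableSet (GK F T L ε cR δ A B') := by
  have hcG : Continuous fun t : ℝ => ε * F t := by fun_prop
  have e : GK F T L ε cR δ A B' = (Set.Icc A B' ∩ {t : ℝ | cR ≤ ε * F t}) ∩
      ⋂ s ∈ (Zf riemannZeta T (2 * T)).filter (fun s => δ ≤ |s.re - 1 / 2|),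
        {t : ℝ | 3 * L < |s.im - t|} := by
    ext t
    simp only [GK, Set.mem_setOf_eq, Set.mem_inter_iff, Set.mem_Icc, Set.mem_iInter]
    tauto
  rw [e]
  refine (measurableSet_Icc.inter (measurableSet_le measurable_const hcG.measurable)).inter ?_
  refine Finset.measurableSet_biInter _ fun s _ => ?_
  exact measurableSet_lt measurable_const
    (show Continuous fun t : ℝ => |s.im - t| by fun_prop).measurable

lemma GK_vol {W F : ℝ → ℝ} {T L ε cR δ A B' IW II Kg Q N0v : ℝ} {J : ℕ}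
    (hWc : Continuous W) (hF : Continuous F) (hW0 : ∀ t, 0 ≤ W t)
    (hFB : ∀ t, A ≤ t → t ≤ B' → ε * F t ≤ Kg * L ^ 2) (hT : 1 ≤ T) (hAB : A ≤ B')
    (hKg : 0 ≤ Kg) (hcR : 0 ≤ cR)
    (hIW : IW = ∫ t in A..B', W t) (hII : II = ∫ t in A..B', W t * F t)
    (hkey : 2 * cR * IW < ε * II)
    (hWm : ∀ t, W t ≤ Q * N0v) (hJ : 3 * L + 1 / 2 ≤ J)
    (hWV : 2 * (Kg * L ^ 2) * (∫ t in A..B', W t * VV T δ J t) ≤ T * N0v)
    (hIWg : T / 4 * N0v ≤ IW) (h8 : 8 ≤ cR) (hN : 0 < N0v) :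
    T ≤ Kg * L ^ 2 * Q * (volume (GK F T L ε cR δ A B')).toReal := by
  set g : ℝ → ℝ := fun t => ε * F t with hg
  have hcG : Continuous g := by rw [hg]; fun_prop
  have hWg : ∫ t in A..B', W t * g t = ε * II := by
    have e1 : ∀ t : ℝ, W t * g t = ε * (W t * F t) := fun t => by rw [hg]; ring
    simp_rw [e1]
    rw [intervalIntegral.integral_const_mul, hII]
  have hgm : ∀ t, A ≤ t → t ≤ B' → g t - cR ≤ Kg * L ^ 2 := by
    intro t h1 h2
    have := hFB t h1 h2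
    show ε * F t - cR ≤ _
    linarith
  have hmeas := meas_lem (G := GK F T L ε cR δ A B') hWc hcG (VV_cont T δ J) hW0
    (VV_nonneg T δ J) (c := cR) (gm := Kg * L ^ 2)
    (Wm := Q * N0v) hAB (GK_meas hF _ _ _ _ _ _ _) (fun t ht => ⟨ht.1, ht.2.1⟩)
    (by positivity) hgm hWm (by
      intro t h1 h2 h3 h4
      have h5 : ∃ s ∈ (Zf riemannZeta T (2 * T)).filter (fun s => δ ≤ |s.re - 1 / 2|),
          |s.im - t| ≤ 3 * L := by
        by_contra hcon
        push Not at hcon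
        exact h3 ⟨h1, h2, h4.le, hcon⟩
      obtain ⟨s, hs, hst⟩ := h5
      rw [Finset.mem_filter] at hs
      exact VV_ge hT hs.1 hs.2 (by linarith))
  have hsub : ∫ t in A..B', W t * (g t - cR) =
      (∫ t in A..B', W t * g t) - cR * IW := by
    have e1 : ∀ t : ℝ, W t * (g t - cR) = W t * g t - cR * W t := fun t => by ring
    simp_rw [e1]
    have c1' : Continuous fun t : ℝ => W t * g t := hWc.mul hcG
    have c2' : Continuous fun t : ℝ => cR * W t := continuous_const.mul hWc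
    rw [intervalIntegral.integral_sub (c1'.intervalIntegrable _ _) (c2'.intervalIntegrable _ _),
      intervalIntegral.integral_const_mul, hIW]
  rw [hsub] at hmeas
  refine vol_num (c0R := cR) (IW := IW) (WV := ∫ t in A..B', W t * VV T δ J t)
    (Wg := ∫ t in A..B', W t * g t) (N0v := N0v) ?_ hmeas hIWg hWV h8 hN (by linarith)
  rw [hWg]
  exact hkey

/-- the hypotheses on a function -/
structure HypF (H : ℝ → ℝ) (a : ℝ → ℕ → ℝ) (w : ℝ → ℝ) (s0 ψ : ℝ) : Prop where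
  meas : Measurable H
  bd : ∃ C : ℝ, 0 < C ∧ ∀ y : ℝ, 2 ≤ y → NZ y → |H y| ≤ C * Real.log y
  sgn : s0 = 1 ∨ s0 = -1
  form : ∃ C T0 : ℝ, 0 < C ∧ 10 ≤ T0 ∧ ∀ T : ℝ, T0 ≤ T →
    ∃ U1 U2 : ℝ, T ≤ U1 ∧ U1 ≤ T + 1 ∧ 2 * T - 1 ≤ U2 ∧ U2 ≤ 2 * T ∧
    ∀ t : ℝ, T + Real.log T ≤ t → t ≤ 2 * T - Real.log T →
    ∀ δ : ℝ, 0 < δ → δ ≤ (Real.log T) ^ (-(1 / 3) : ℝ) →
      |FH H U1 U2 (8 * Real.log (Real.log T)) t - s0 * DK (a T) ⌊T ^ (1 / 8 : ℝ)⌋₊ ψ t| ≤
      C * ((Real.log T) ^ (1 / 3 : ℝ) * (Real.log (Real.log T)) ^ 3 +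
        (1 + δ ^ 2 * Real.log T) * (Real.log (Real.log T)) ^ 2) +
      C * (Real.log T) ^ 5 * ZZd T δ t
  coef : ∃ T0 : ℝ, ∀ T : ℝ, T0 ≤ T → (∀ n ∈ Icc 2 ⌊T ^ (1 / 8 : ℝ)⌋₊, |a T n| ≤ 6) ∧
    (∀ n, ¬ IsPrimePow n → a T n = 0) ∧
    ∀ p : ℕ, p.Prime → Real.log T ≤ p → (p : ℝ) ≤ (Real.log T) ^ 2 →
      w T / Real.sqrt p ≤ a T p
  wpos : ∃ T0 : ℝ, ∀ T : ℝ, T0 ≤ T → 0 < w T
  dom : ∀ K : ℝ, 0 < K → ∀ᶠ T : ℝ in atTop,
    K + K * (Real.log T) ^ (1 / 3 : ℝ) * (Real.log (Real.log T)) ^ 3 ≤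
      w T * Real.sqrt (Real.log T / Real.log (Real.log T))

lemma key_numK {ε s0 II JD IW SP S' N0v len T c1 V K1 K2 Bd X2 : ℝ}
    (hε : ε = 1 ∨ ε = -1) (hs0 : s0 = 1 ∨ s0 = -1)
    (hcomp : |II - s0 * JD| ≤ K1 * IW + K2 * Bd)
    (hJ : |JD - len * SP| ≤ 12 * X2 * N0v) (hSP : SP = ε * s0 * S') (hS : c1 * V * N0v ≤ S')
    (hlen : T / 2 ≤ len) (hT : 0 < T) (hN : 1 ≤ N0v) (hIW : IW ≤ 2 * T * N0v)
    (hIWg : T / 4 * N0v ≤ IW) (hX : 12 * X2 ≤ T) (hc1 : 0 < c1) (hV : 0 < V)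
    (hBd : K2 * Bd ≤ T * N0v) (hfin : 8 + K1 ≤ c1 / 8 * V) :
    2 * (c1 / 32 * V) * IW < ε * II := by
  have hN0 : 0 < N0v := by linarith
  have hTN : 0 < T * N0v := by positivity
  have hIW0 : 0 < IW := lt_of_lt_of_le (by positivity) hIWg
  have hq : (ε * s0) * (ε * s0) = 1 := by
    rcases hε with h | h <;> rcases hs0 with h' | h' <;> rw [h, h'] <;> norm_num
  have h1 : ε * s0 * JD - (K1 * IW + K2 * Bd) ≤ ε * II := by
    rw [abs_le] at hcomp
    rcases hε with h | h <;> rw [h] <;> linarith [hcomp.1, hcomp.2]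
  have h2 : len * S' - 12 * X2 * N0v ≤ ε * s0 * JD := by
    have e : ε * s0 * (len * SP) = len * S' := by
      rw [hSP]
      calc ε * s0 * (len * (ε * s0 * S')) = (ε * s0) * (ε * s0) * (len * S') := by ring
        _ = _ := by rw [hq, one_mul]
    have h3 : |ε * s0 * (JD - len * SP)| ≤ 12 * X2 * N0v := by
      rw [abs_mul]
      have : |ε * s0| = 1 := by
        rcases hε with h | h <;> rcases hs0 with h' | h' <;> rw [h, h'] <;> norm_num
      rw [this, one_mul]; exact hJ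
    rw [abs_le] at h3
    have h4 := h3.1
    rw [mul_sub, e] at h4
    linarith
  have h3 : 12 * X2 * N0v ≤ T * N0v := mul_le_mul_of_nonneg_right hX hN0.le
  have h4 : (T / 2) * (c1 * V * N0v) ≤ len * S' := by
    have : 0 ≤ c1 * V * N0v := by positivity
    exact mul_le_mul hlen hS this (by linarith)
  have h5 : c1 * V / 4 * IW ≤ (T / 2) * (c1 * V * N0v) := by
    have : c1 * V / 4 * IW ≤ c1 * V / 4 * (2 * T * N0v) :=
      mul_le_mul_of_nonneg_left hIW (by positivity)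
    linarith
  have h6 : (8 + K1) * IW ≤ c1 / 8 * V * IW := mul_le_mul_of_nonneg_right hfin hIW0.le
  have h7 : 0 < c1 * V * IW := by positivity
  nlinarith

end

end Pool.Agent.Y746.OJ
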