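import Pool.Agent.Y746.OJ.A2

set_option autoImplicit false

/-! Assembly, part 3: the core. -/

namespace Pool.Agent.Y746.OJ

open Finset Filter Topology MeasureTheory
open H370 (zset mult NN Zf zz)
open Pool.Agent.Y746.OM

noncomputable section

/-- integrability on bounded intervals -/
lemma H_int {H : ℝ → ℝ} (hm : Measurable H) {CH L T U1 U2 : ℝ} (hT : 2 ≤ T) (hU1 : T ≤ U1)
    (hU12 : U1 ≤ U2) (hU2 : U2 ≤ 2 * T)
    (hH : ∀ y, T ≤ y → y ≤ 2 * T → NZ y → |H y| ≤ CH * L) :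
    IntervalIntegrable H volume U1 U2 := by
  rw [intervalIntegrable_iff_integrableOn_Ioc_of_le hU12]
  refine Integrable.mono' (g := fun _ => CH * L) (integrableOn_const (by simp))
    hm.aestronglyMeasurable ?_
  have hnull : ∀ᵐ y : ℝ, ¬ (1 < y ∧ ¬ NZ y) := by
    rw [ae_iff]
    simpa only [not_not] using NZ_null
  rw [ae_restrict_iff' measurableSet_Ioc]
  filter_upwards [hnull] with y hy hy2
  rw [Real.norm_eq_abs]
  refine hH y (by linarith [hy2.1]) (by linarith [hy2.2]) ?_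
  by_contra hc
  exact hy ⟨by linarith [hy2.1], hc⟩

lemma FH_cont {H : ℝ → ℝ} {U1 U2 B : ℝ} (hH : IntervalIntegrable H volume U1 U2)
    (hKc : Continuous (KR B)) (hKB : ∀ x, |KR B x| ≤ B) : Continuous (FH H U1 U2 B) := by
  unfold FH
  refine intervalIntegral.continuous_of_dominated_interval (bound := fun y => |H y| * B)
    (fun t => ?_) (fun t => Eventually.of_forall fun y _ => ?_) ?_
    (Eventually.of_forall fun y _ => ?_)
  · have h1 : AEStronglyMeasurable H (volume.restrict (Set.uIoc U1 U2)) := by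
      rw [intervalIntegrable_iff] at hH
      exact hH.aestronglyMeasurable
    exact h1.mul (hKc.comp (by fun_prop : Continuous fun y : ℝ => y - t)).aestronglyMeasurable
  · rw [norm_mul, Real.norm_eq_abs, Real.norm_eq_abs]
    exact mul_le_mul_of_nonneg_left (hKB _) (abs_nonneg _)
  · exact hH.norm.mul_const B
  · exact continuous_const.mul (hKc.comp (by fun_prop))

lemma le_sqT {T y : ℝ} (hT : 10 ≤ T) (h : y ≤ 2 * T) : y ≤ T ^ 2 := by nlinarith

lemma exp_le1 (x : ℝ) : Real.exp (-x ^ 2 / 2) ≤ 1 := by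
  rw [Real.exp_le_one_iff]; nlinarith [sq_nonneg x]

lemma fin_a {c1 D x V : ℝ} (hc1 : 0 < c1) (hD : 0 ≤ D) (hx : 0 ≤ x)
    (h : ((8 + D) * (8 / c1) + 256 / c1) + ((8 + D) * (8 / c1) + 256 / c1) * x ≤ V) :
    8 + D * x ≤ c1 / 8 * V ∧ 8 ≤ c1 / 32 * V := by
  set K := (8 + D) * (8 / c1) + 256 / c1 with hK
  have e : c1 * K = 8 * (8 + D) + 256 := by rw [hK]; field_simp
  have h1 : c1 * (K + K * x) ≤ c1 * V := mul_le_mul_of_nonneg_left h hc1.le
  have h2 : c1 * (K + K * x) = (8 * (8 + D) + 256) * (1 + x) := by rw [← e]; ring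
  rw [h2] at h1
  have h3 : 0 ≤ D * x := mul_nonneg hD hx
  constructor
  · have : (8 * (8 + D) + 256) * (1 + x) = 320 + 320 * x + 8 * D + 8 * (D * x) := by ring
    rw [this] at h1
    linarith
  · have : (8 * (8 + D) + 256) * (1 + x) = 320 + 320 * x + 8 * D + 8 * (D * x) := by ring
    rw [this] at h1
    linarith

lemma Kg_a {κ CH0 L C3 Kg : ℝ} (hκ : κ ≤ 13) (hCH : 0 < CH0) (hL : 1 ≤ L) (hC3 : 0 < C3)
    (hKg : Kg = 2 * (CH0 + 1) * 46 + 2 * 9 * C3 + 1) :
    κ * (2 * (CH0 + 1) * L) + 33 * (2 * (CH0 + 1)) ≤ Kg * L ^ 2 := by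
  have q3 : 0 ≤ 2 * (CH0 + 1) := by positivity
  have q1 : κ * (2 * (CH0 + 1) * L) ≤ 13 * (2 * (CH0 + 1) * L) :=
    mul_le_mul_of_nonneg_right hκ (by positivity)
  have q2 : L ≤ L ^ 2 := by nlinarith
  have q4 : 2 * (CH0 + 1) * L ≤ 2 * (CH0 + 1) * L ^ 2 := mul_le_mul_of_nonneg_left q2 q3
  have q6 : 2 * (CH0 + 1) * 1 ≤ 2 * (CH0 + 1) * L ^ 2 :=
    mul_le_mul_of_nonneg_left (by linarith) q3
  have q7 : 0 ≤ L ^ 2 := by positivity
  have q8 : 0 ≤ 2 * 9 * C3 * L ^ 2 := by positivity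
  have e : Kg * L ^ 2 = 46 * (2 * (CH0 + 1) * L ^ 2) + 2 * 9 * C3 * L ^ 2 + L ^ 2 := by
    rw [hKg]; ring
  rw [e]
  linarith

theorem core {H : ℝ → ℝ} {a : ℝ → ℕ → ℝ} {w : ℝ → ℝ} {s0 ψ : ℝ} (hyp : HypF H a w s0 ψ)
    (hFd : S_Fd) (hKER : S_KER) (hPR : S_PR) (hRK : S_RK2) (hWB : S_WB)
    (η0 : ℝ) (hη0 : 0 < η0) : ∃ c0 C5 CH T0 : ℝ, 0 < c0 ∧ 0 < C5 ∧ 0 < CH ∧ 10 ≤ T0 ∧
    ∀ T : ℝ, T0 ≤ T →
    (∀ y, T ≤ y → y ≤ 2 * T → NZ y → |H y| ≤ CH * Real.log T) ∧
    ∃ U1 U2 : ℝ, T ≤ U1 ∧ U1 ≤ T + 1 ∧ 2 * T - 1 ≤ U2 ∧ U2 ≤ 2 * T ∧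
    ∀ ε : ℝ, (ε = 1 ∨ ε = -1) → ∃ G : Set ℝ, MeasurableSet G ∧
      G ⊆ Set.Icc (T + 6 * Real.log T) (2 * T - 6 * Real.log T) ∧
      T ^ (1 - 2 * η0) ≤ (volume G).toReal ∧
      ∀ t ∈ G, c0 * (w T * Real.sqrt (Real.log T / Real.log (Real.log T))) ≤
        ε * FH H U1 U2 (8 * Real.log (Real.log T)) t ∧
        ∀ s ∈ Zf riemannZeta T (2 * T), |s.im - t| ≤ 3 * Real.log T →
          |s.re - 1 / 2| ≤ C5 / Real.sqrt (Real.log T * Real.log (Real.log T)) := by
  obtain ⟨cD, CD, TD, hcD, hcD1, hCD, hTD, hFd⟩ := hFd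
  set c : ℝ := min η0 cD with hcdef
  have hc : 0 < c := lt_min hη0 hcD
  have hcη : c ≤ η0 := min_le_left _ _
  have hccD : c ≤ cD := min_le_right _ _
  have hc1 : c ≤ 1 / 100 := hccD.trans hcD1
  obtain ⟨CK, hCK, hKER⟩ := hKER
  obtain ⟨c1, C1, T4, hc10, hC1, hT4, hRK⟩ := hRK 1 c one_pos hc
  obtain ⟨CH0, hCH0, hbd⟩ := hyp.bd
  obtain ⟨C3, T3, hC3, hT3, hform⟩ := hyp.form
  obtain ⟨T6, hcoef⟩ := hyp.coef
  obtain ⟨T7, hwp⟩ := hyp.wpos
  have hdom := hyp.dom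
  have hll : Tendsto (fun T : ℝ => Real.log (Real.log T)) atTop atTop :=
    Real.tendsto_log_atTop.comp Real.tendsto_log_atTop
  -- the constant in the distance of the zeros from the line
  set C5 : ℝ := (C1 + 1) / cD + 2 with hC5
  have hC50 : 2 ≤ C5 := by
    have : 0 ≤ (C1 + 1) / cD := by positivity
    linarith
  set Kg : ℝ := 2 * (CH0 + 1) * 46 + 2 * 9 * C3 + 1 with hKg
  have hKg0 : 1 ≤ Kg := by
    have : 0 ≤ 2 * (CH0 + 1) * 46 + 2 * 9 * C3 := by positivity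
    linarith
  -- the asymptotic conditions
  have ev1 := hdom ((8 + C3 * (2 + C5 ^ 2)) * (8 / c1) + 256 / c1) (by positivity)
  have ev3 : ∀ᶠ T : ℝ in atTop, 12 * Real.log T ≤ T / 2 := by
    have h1 := Real.isLittleO_log_id_atTop.bound (show (0 : ℝ) < 1 / 48 by norm_num)
    filter_upwards [h1, eventually_ge_atTop 1] with T a1 a3
    have a4 := Real.log_nonneg a3
    simp only [id_eq] at a1
    rw [Real.norm_of_nonneg a4, Real.norm_of_nonneg (by linarith)] at a1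
    linarith
  have ev4 : ∀ᶠ T : ℝ in atTop, 12 * (T ^ (1 / 8 : ℝ)) ^ 2 * (T ^ c) ^ 2 ≤ T := by
    have h1 : Tendsto (fun T : ℝ => T ^ (1 / 2 : ℝ)) atTop atTop := tendsto_rpow_atTop (by norm_num)
    filter_upwards [h1.eventually_ge_atTop 12, eventually_ge_atTop 1] with T a1 a2
    have hT0 : 0 < T := by linarith
    calc 12 * (T ^ (1 / 8 : ℝ)) ^ 2 * (T ^ c) ^ 2 ≤ T ^ (1 / 2 : ℝ) * (T ^ (1 / 8 : ℝ)) ^ 2 * (T ^ c) ^ 2 := by
          gcongr
      _ = T ^ (1 / 2 + (1 / 8) * 2 + c * 2) := by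
          rw [← Real.rpow_natCast (T ^ (1 / 8 : ℝ)), ← Real.rpow_natCast (T ^ c),
            ← Real.rpow_mul hT0.le, ← Real.rpow_mul hT0.le, ← Real.rpow_add hT0,
            ← Real.rpow_add hT0]
          norm_num
      _ ≤ T ^ (1 : ℝ) := Real.rpow_le_rpow_of_exponent_le a2 (by linarith)
      _ = T := Real.rpow_one T
  have ev5 : ∀ᶠ T : ℝ in atTop, (Real.log T) ^ 2 ≤ ((⌊T ^ (1 / 8 : ℝ)⌋₊ : ℕ) : ℝ) := by
    have h1 : (fun x : ℝ => Real.log x ^ (2 : ℝ)) =o[atTop] fun x => x ^ (1 / 8 : ℝ) :=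
      isLittleO_log_rpow_rpow_atTop 2 (by norm_num)
    have h2 := h1.bound (show (0 : ℝ) < 1 / 2 by norm_num)
    have h3 : Tendsto (fun T : ℝ => T ^ (1 / 8 : ℝ)) atTop atTop := tendsto_rpow_atTop (by norm_num)
    filter_upwards [h2, h3.eventually_ge_atTop 2, eventually_ge_atTop 1] with T a1 a2 a3
    have a4 := Real.log_nonneg a3
    rw [Real.norm_of_nonneg (by positivity), Real.norm_of_nonneg (by positivity)] at a1
    have e4 : Real.log T ^ (2 : ℝ) = Real.log T ^ 2 := by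
      rw [← Real.rpow_natCast]; norm_num
    rw [e4] at a1
    have := Nat.sub_one_lt_floor (T ^ (1 / 8 : ℝ))
    linarith
  have ev6 := hll.eventually_ge_atTop 1
  have ev7 := Real.tendsto_log_atTop.eventually_ge_atTop 3
  have ev8 := Real.tendsto_log_atTop.eventually
    (asym3 (2 * Kg * 9 * CD) (5 + CD) (by positivity) (by positivity))
  have ev9 : ∀ᶠ T : ℝ in atTop, 32 * C5 ≤ Real.sqrt (Real.log T) :=
    (Real.tendsto_sqrt_atTop.comp Real.tendsto_log_atTop).eventually_ge_atTop (32 * C5)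
  have ev11 : ∀ᶠ T : ℝ in atTop, Kg * (Real.log T) ^ 2 ≤ T ^ c := by
    have h1 : (fun x : ℝ => Real.log x ^ (2 : ℝ)) =o[atTop] fun x => x ^ c :=
      isLittleO_log_rpow_rpow_atTop 2 hc
    have h2 := h1.bound (show (0 : ℝ) < 1 / Kg by positivity)
    filter_upwards [h2, eventually_ge_atTop 1] with T a1 a3
    have a4 := Real.log_nonneg a3
    rw [Real.norm_of_nonneg (by positivity), Real.norm_of_nonneg (by positivity)] at a1
    have e4 : Real.log T ^ (2 : ℝ) = Real.log T ^ 2 := by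
      rw [← Real.rpow_natCast]; norm_num
    rw [e4] at a1
    calc Kg * (Real.log T) ^ 2 ≤ Kg * (1 / Kg * T ^ c) := by gcongr
      _ = T ^ c := by field_simp
  have ev12 : ∀ᶠ T : ℝ in atTop, 8 * Real.log (Real.log T) ≤ Real.log T := by
    have h1 := Real.isLittleO_log_id_atTop.bound (show (0 : ℝ) < 1 / 8 by norm_num)
    have h2 := Real.tendsto_log_atTop.eventually h1
    filter_upwards [h2, ev6, ev7] with T a1 a2 a3
    simp only [id_eq] at a1
    rw [Real.norm_of_nonneg (by linarith), Real.norm_of_nonneg (by linarith)] at a1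
    linarith
  have ev13 : ∀ᶠ T : ℝ in atTop, C5 ≤ (Real.log T) ^ (1 / 6 : ℝ) :=
    ((tendsto_rpow_atTop (by norm_num : (0 : ℝ) < 1 / 6)).comp
      Real.tendsto_log_atTop).eventually_ge_atTop C5
  obtain ⟨T5, hT5⟩ := eventually_atTop.1 (ev1.and (ev3.and (ev4.and (ev5.and (ev6.and
    (ev7.and (ev8.and (ev9.and (ev11.and (ev12.and ev13))))))))))
  refine ⟨c1 / 32, C5, 2 * (CH0 + 1), max (max (max T3 T4) (max T6 T7)) (max T5 TD), by positivity,
    by linarith, by positivity,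
    hT3.trans ((le_max_left _ _).trans ((le_max_left _ _).trans (le_max_left _ _))),
    fun T hT => ?_⟩
  have hTr := (le_max_right _ _).trans hT
  obtain ⟨b1, b3, b4, b5, b6, b7, b8, b9, b11, b12, b13⟩ := hT5 T ((le_max_left _ _).trans hTr)
  have hTTD : TD ≤ T := (le_max_right _ _).trans hTr
  have hTT := (le_max_left _ _).trans hT
  have hTa := (le_max_left _ _).trans hTT
  have hTb := (le_max_right _ _).trans hTT
  have hTT3 : T3 ≤ T := (le_max_left _ _).trans hTa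
  have hTT4 : T4 ≤ T := (le_max_right _ _).trans hTa
  have hTT6 : T6 ≤ T := (le_max_left _ _).trans hTb
  have hTT7 : T7 ≤ T := (le_max_right _ _).trans hTb
  have hT10 : 10 ≤ T := hT3.trans hTT3
  have hT0 : 0 < T := by linarith
  have hHb : ∀ y, T ≤ y → y ≤ 2 * T → NZ y → |H y| ≤ 2 * (CH0 + 1) * Real.log T := by
    intro y h1 h2 h3
    refine (hbd y (by linarith) h3).trans ?_
    have : Real.log y ≤ 2 * Real.log T := by
      have : Real.log y ≤ Real.log (T ^ 2) := Real.log_le_log (by linarith) (le_sqT hT10 h2)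
      rw [Real.log_pow] at this
      exact_mod_cast this
    have hL0 : 0 ≤ Real.log T := by linarith
    have hy0 : 0 ≤ Real.log y := Real.log_nonneg (by linarith)
    calc CH0 * Real.log y ≤ (CH0 + 1) * (2 * Real.log T) :=
          mul_le_mul (by linarith) this hy0 (by linarith)
      _ = _ := by ring
  refine ⟨hHb, ?_⟩
  obtain ⟨U1, U2, hU1, hU1', hU2, hU2', hform⟩ := hform T hTT3
  refine ⟨U1, U2, hU1, hU1', hU2, hU2', fun ε hε => ?_⟩
  obtain ⟨ha1, ha2, ha3⟩ := hcoef T hTT6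
  have hw := hwp T hTT7
  set L := Real.log T with hL
  set LL := Real.log L with hLL
  set B := 8 * LL with hB
  have hB1 : 1 ≤ B := by linarith
  obtain ⟨P, r, hP, hr, hRK1, hRK2⟩ := hRK T hTT4
  set Q := T ^ c with hQ
  have hQ1 : 1 ≤ Q := Real.one_le_rpow (by linarith) hc.le
  have hQ0 : 0 < Q := by linarith
  have hQD : Q ≤ T ^ cD := Real.rpow_le_rpow_of_exponent_le (by linarith) hccD
  obtain ⟨k1, k2, k3, k4, k5, -, -, k8, k9, k10, k11⟩ := hKER B hB1
  have hPp : ∀ p ∈ P, p.Prime := fun p hp => (hP p hp).1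
  have hU12 : U1 ≤ U2 := by linarith
  have hHi := H_int hyp.meas (by linarith : (2 : ℝ) ≤ T) hU1 hU12 hU2' hHb
  have hKB : ∀ x, |KR B x| ≤ B := by
    intro x
    rw [abs_of_nonneg (k2 x).1]
    refine (k2 x).2.trans ?_
    exact mul_le_of_le_one_right (by linarith) (exp_le1 x)
  have hFc : Continuous (FH H U1 U2 B) := FH_cont hHi k3 hKB
  -- the phase
  set φ0 : ℝ := if ε * s0 = 1 then ψ else ψ + Real.pi with hφ0
  have hεs : ε * s0 = 1 ∨ ε * s0 = -1 := by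
    rcases hε with h | h <;> rcases hyp.sgn with h' | h' <;> rw [h, h'] <;> norm_num
  have hcos : Real.cos (φ0 - ψ) = ε * s0 := by
    rcases hεs with h | h
    · rw [hφ0, if_pos h, h, sub_self, Real.cos_zero]
    · rw [hφ0, if_neg (by rw [h]; norm_num), h, add_sub_cancel_left, Real.cos_pi]
  set W : ℝ → ℝ := fun t => ‖RS P Q (yc r (fun _ => φ0)) ((t : ℂ) * Complex.I)‖ ^ 2 with hW
  have hWc : Continuous W := W_cont P Q _ hPp
  have hW0 : ∀ t, 0 ≤ W t := fun t => by positivity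
  set A := T + 6 * L with hA
  set B' := 2 * T - 6 * L with hB'
  set X := ⌊T ^ (1 / 8 : ℝ)⌋₊ with hX
  have hL3 : 3 ≤ L := b7
  have hL0 : 0 < L := by linarith
  have hAB : A ≤ B' := by linarith
  have hlen1 : T / 2 ≤ B' - A := by linarith
  have hlen2 : B' - A ≤ T := by linarith
  have hPX : ∀ p ∈ P, p ≤ X := by
    intro p hp
    have := (hP p hp).2.2
    exact_mod_cast this.trans b5
  have hN01 : 1 ≤ N0 P r Q := N0_ge_one hQ1
  have hXle : (X : ℝ) ≤ T ^ (1 / 8 : ℝ) := Nat.floor_le (by positivity)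
  have hX2 : 12 * (X : ℝ) ^ 2 * Q ^ 2 ≤ T := by
    calc 12 * (X : ℝ) ^ 2 * Q ^ 2 ≤ 12 * (T ^ (1 / 8 : ℝ)) ^ 2 * Q ^ 2 := by gcongr
      _ ≤ T := b4
  have hQ2 : 2 * Q ^ 2 ≤ T := hX_aux b5 hL3 hX2
  -- the mean of the weight
  have hmean := (hPR P r (fun _ => φ0) Q A B' hPp hr hQ1 hAB).1
  rw [abs_le] at hmean
  have hIW2 : (∫ t in A..B', W t) ≤ 2 * T * N0 P r Q := by
    refine IW_le (Q2 := Q ^ 2) ?_ hlen2 hQ2 (by linarith)
    exact hmean.2
  have hIWg : T / 4 * N0 P r Q ≤ ∫ t in A..B', W t :=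
    IW_ge hmean.1 hlen1 (hX_aux2 b5 hL3 hX2) (by linarith)
  -- the distance
  have hLLL : LL ≤ L := by
    have := Real.log_le_sub_one_of_pos (show 0 < L by linarith)
    linarith
  obtain ⟨hsq0, hsqL, hsqL2⟩ := sq_lem b6 hLLL
  set δ : ℝ := C5 / Real.sqrt (L * LL) with hδ
  have hδ0 : 0 < δ := by positivity
  have hδ1 : 2 / L ≤ δ := by
    rw [hδ]
    exact div_le_div₀ (by linarith) hC50 hsq0 hsqL
  have hδ2 : δ ≤ 1 / 32 := by
    rw [hδ, div_le_div_iff₀ hsq0 (by norm_num)]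
    linarith
  have hδ3 : δ ≤ L ^ (-(1 / 3) : ℝ) := by
    rw [hδ, div_le_iff₀ hsq0]
    calc C5 ≤ L ^ (1 / 6 : ℝ) := b13
      _ = L ^ (-(1 / 3) : ℝ) * Real.sqrt L := by
          rw [Real.sqrt_eq_rpow, ← Real.rpow_add hL0]; norm_num
      _ ≤ L ^ (-(1 / 3) : ℝ) * Real.sqrt (L * LL) := by gcongr
  have hδL : δ ^ 2 * L ≤ C5 ^ 2 := by
    rw [hδ, div_pow, Real.sq_sqrt (by positivity), div_mul_eq_mul_div, div_le_iff₀ (by positivity)]
    have : C5 ^ 2 * L ≤ C5 ^ 2 * (L * LL) := by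
      apply mul_le_mul_of_nonneg_left _ (by positivity)
      exact le_mul_of_one_le_right (by linarith) b6
    exact this
  have hEP0 : 0 ≤ EP P r := by
    unfold EP
    refine Finset.prod_nonneg fun p hp => ?_
    have := hr p hp
    positivity
  set R := Real.sqrt (L / LL) with hR
  have hR0 : 0 < R := Real.sqrt_pos.2 (div_pos hL0 (by linarith))
  set J : ℕ := ⌊4 * L⌋₊ with hJd
  have hJ1 : 3 * L + 1 / 2 ≤ J := by
    have := Nat.sub_one_lt_floor (4 * L)
    linarith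
  have hJ2 : (J : ℝ) ≤ 4 * L := Nat.floor_le (by linarith)
  have hshift : ∀ j : ℝ, -(4 * L) ≤ j → j ≤ 4 * L → ∫ t in A..B', W t * ZZd T δ (t + j) ≤
      CD * T * L ^ CD * T ^ (-(cD * δ)) * EP P r := fun j j1 j2 =>
    farWd (c := cD) (C := CD * T * L ^ CD * T ^ (-(cD * δ))) hT0.le
        (fun P r Q y h1 h2 h3 h4 h5 => hFd T hTTD δ hδ1 hδ2 P r Q y h1 h2 h3 h4 h5)
        (φ := fun _ => φ0) hPp hr
        hQ1 hQD (A := A) (B := B') (v := j) (by linarith) hAB (by linarith)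
  have hbase : ∀ K : ℝ, 0 ≤ K → K ≤ 2 * Kg * 9 * L ^ 5 →
      K * (CD * T * L ^ CD * T ^ (-(cD * δ)) * EP P r) ≤ T * N0 P r Q := by
    intro K hK0 hK
    calc K * (CD * T * L ^ CD * T ^ (-(cD * δ)) * EP P r) ≤
          (2 * Kg * 9 * L ^ 5) * (CD * T * L ^ CD * T ^ (-(cD * δ)) *
            (Real.exp (C1 * R) * N0 P r Q)) := by
              refine mul_le_mul hK ?_ (by positivity) (by positivity)
              exact mul_le_mul_of_nonneg_left hRK2 (by positivity)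
        _ = (2 * Kg * 9 * CD * (L ^ (5 : ℝ) * L ^ CD) * (Real.exp (-(cD * C5 * R)) *
              Real.exp (C1 * R))) * (T * N0 P r Q) := by
              rw [hδ, Td_lem hT0 hL hL0 (by linarith)]
              have : L ^ (5 : ℝ) = L ^ 5 := by rw [← Real.rpow_natCast]; norm_num
              rw [this]
              ring
        _ ≤ (2 * Kg * 9 * CD * L ^ (5 + CD) * Real.exp (-R)) * (T * N0 P r Q) := by
              rw [← Real.rpow_add hL0, ← Real.exp_add]
              have := ex_lem (R := R) hcD hR0.le hC5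
              have h2 : 0 ≤ T * N0 P r Q := by positivity
              refine mul_le_mul_of_nonneg_right ?_ h2
              refine mul_le_mul_of_nonneg_left (Real.exp_le_exp.2 this) (by positivity)
        _ ≤ 1 * (T * N0 P r Q) := by
              apply mul_le_mul_of_nonneg_right b8 (by positivity)
        _ = _ := one_mul _
  have hL1 : 1 ≤ L := by linarith
  have hL5 : L ^ 3 ≤ L ^ 5 := pow_le_pow_right₀ hL1 (by norm_num)
  -- the comparison
  have hcomp := cmpK (W := W) (F := FH H U1 U2 B) (D := fun t => s0 * DK (a T) X ψ t)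
    (Z := ZZd T δ) hWc hFc (continuous_const.mul (DK_cont _ _ _))
    (ZZd_cont T δ) hW0 (A := A) (B := B')
    (K1 := C3 * (L ^ (1 / 3 : ℝ) * LL ^ 3 + (1 + δ ^ 2 * L) * LL ^ 2))
    (K2 := C3 * L ^ 5) (Bd := CD * T * L ^ CD * T ^ (-(cD * δ)) * EP P r)
    hAB (by positivity) (fun t h1 h2 => hform t (by linarith) (by linarith) δ hδ0 hδ3)
    (by
      have := hshift 0 (by linarith) (by linarith)
      simpa using this)
  -- the main part
  have hJ := avgK hPR P r φ0 ψ Q hPp hr hQ1 hAB (a T) X ha1 ha2 hPX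
  set S' := ∑ p ∈ P, a T p * (r p * N1 P r Q p) with hS'
  have hSP : ∑ p ∈ P, a T p * (r p * Real.cos (φ0 - ψ) * N1 P r Q p) = ε * s0 * S' := by
    rw [hcos, hS', Finset.mul_sum]
    refine Finset.sum_congr rfl fun p _ => ?_
    ring
  have hSlow : c1 * (w T * R) * N0 P r Q ≤ S' := by
    have h1 : c1 * R * N0 P r Q ≤ ∑ p ∈ P, 1 / Real.sqrt p * (r p * N1 P r Q p) := by
      refine hRK1.trans (Finset.sum_le_sum fun p hp => ?_)
      have g0 := hr p hp
      have g1 := N1_nonneg P r Q p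
      have g2 := Real.abs_sin_le_one (1 * Real.log p / 2)
      calc |Real.sin (1 * Real.log p / 2)| / Real.sqrt p * r p * N1 P r Q p ≤
          1 / Real.sqrt p * r p * N1 P r Q p := by gcongr
        _ = _ := by ring
    calc c1 * (w T * R) * N0 P r Q = w T * (c1 * R * N0 P r Q) := by ring
      _ ≤ w T * ∑ p ∈ P, 1 / Real.sqrt p * (r p * N1 P r Q p) := by gcongr
      _ = ∑ p ∈ P, w T / Real.sqrt p * (r p * N1 P r Q p) := by
          rw [Finset.mul_sum]
          refine Finset.sum_congr rfl fun p _ => ?_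
          ring
      _ ≤ S' := by
          refine Finset.sum_le_sum fun p hp => ?_
          have g0 := hr p hp
          have g1 := N1_nonneg P r Q p
          have g2 := ha3 p (hP p hp).1 (hP p hp).2.1 (hP p hp).2.2
          gcongr
  set IW := ∫ t in A..B', W t with hIW
  set II := ∫ t in A..B', W t * FH H U1 U2 B t with hII
  have hsJ : ∫ t in A..B', W t * (s0 * DK (a T) X ψ t) =
      s0 * ∫ t in A..B', W t * DK (a T) X ψ t := by
    rw [← intervalIntegral.integral_const_mul]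
    refine intervalIntegral.integral_congr fun t _ => ?_
    ring
  rw [hsJ] at hcomp
  set V := w T * R with hV
  have hV0 : 0 < V := mul_pos hw hR0
  have hx1 : 0 ≤ L ^ (1 / 3 : ℝ) * LL ^ 3 := by
    have : 0 ≤ LL := by linarith
    positivity
  have hx2 : LL ^ 2 ≤ L ^ (1 / 3 : ℝ) * LL ^ 3 := by
    have q1 : (1 : ℝ) ≤ L ^ (1 / 3 : ℝ) := Real.one_le_rpow hL1 (by norm_num)
    have q2 : LL ^ 2 ≤ LL ^ 3 := pow_le_pow_right₀ b6 (by norm_num)
    have q3 : 0 ≤ LL ^ 3 := by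
      have : 0 ≤ LL := by linarith
      positivity
    calc LL ^ 2 ≤ LL ^ 3 := q2
      _ = 1 * LL ^ 3 := (one_mul _).symm
      _ ≤ L ^ (1 / 3 : ℝ) * LL ^ 3 := mul_le_mul_of_nonneg_right q1 q3
  have hK1 : C3 * (L ^ (1 / 3 : ℝ) * LL ^ 3 + (1 + δ ^ 2 * L) * LL ^ 2) ≤
      C3 * (2 + C5 ^ 2) * (L ^ (1 / 3 : ℝ) * LL ^ 3) := by
    rw [mul_assoc C3]
    apply mul_le_mul_of_nonneg_left _ hC3.le
    have q1 : (1 + δ ^ 2 * L) * LL ^ 2 ≤ (1 + C5 ^ 2) * (L ^ (1 / 3 : ℝ) * LL ^ 3) :=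
      mul_le_mul (by linarith) hx2 (by positivity) (by positivity)
    linarith
  obtain ⟨hfin2, h8⟩ := fin_a (D := C3 * (2 + C5 ^ 2)) (x := L ^ (1 / 3 : ℝ) * LL ^ 3) (V := V)
    hc10 (by positivity) hx1 (by rw [← mul_assoc]; exact b1)
  have hfin1 : 8 + C3 * (L ^ (1 / 3 : ℝ) * LL ^ 3 + (1 + δ ^ 2 * L) * LL ^ 2) ≤ c1 / 8 * V := by
    linarith
  have hKgC : C3 * L ^ 5 ≤ 2 * Kg * 9 * L ^ 5 := by
    apply mul_le_mul_of_nonneg_right _ (by positivity)
    have : 0 ≤ 2 * (CH0 + 1) * 46 := by positivity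
    linarith
  have hkey : 2 * (c1 / 32 * V) * IW < ε * II :=
    key_numK (X2 := (X : ℝ) ^ 2 * Q ^ 2) (N0v := N0 P r Q) (len := B' - A) (T := T) hε hyp.sgn hcomp
      (by refine hJ.trans (le_of_eq ?_); ring) hSP hSlow hlen1 hT0 hN01 hIW2 hIWg (by linarith)
      hc10 hV0 (hbase _ (by positivity) hKgC) hfin1
  -- the bad centres
  have hWV := WV_le (W := W) (T := T) (δ := δ) (L := L) (A := A) (B' := B')
    (Bd := CD * T * L ^ CD * T ^ (-(cD * δ)) * EP P r) (J := J) hWc hL1 (by positivity)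
    hJ2 hshift
  have hWV2 : 2 * (Kg * L ^ 2) * (∫ t in A..B', W t * VV T δ J t) ≤ T * N0 P r Q := by
    calc 2 * (Kg * L ^ 2) * (∫ t in A..B', W t * VV T δ J t) ≤
          2 * (Kg * L ^ 2) * ((9 * L) * (CD * T * L ^ CD * T ^ (-(cD * δ)) * EP P r)) := by
              exact mul_le_mul_of_nonneg_left hWV (by positivity)
        _ = (2 * Kg * 9 * L ^ 3) * (CD * T * L ^ CD * T ^ (-(cD * δ)) * EP P r) := by ring
        _ ≤ _ := hbase _ (by positivity) (by gcongr)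
  set κ := ∫ x : ℝ, KR B x with hκ
  have hκ0 : 0 ≤ κ := integral_nonneg fun x => (k2 x).1
  have hκ13 : κ ≤ 13 := kap_le k8 (k9 1).2
  have hFB : ∀ t, A ≤ t → t ≤ B' → ε * FH H U1 U2 B t ≤ Kg * L ^ 2 := by
    intro t h1 h2
    have h3 := avg_le (H := H) (T := T) (U1 := U1) (U2 := U2) (B := B) (L := L)
      (CH := 2 * (CH0 + 1)) (κ := κ) (t := t) (M := 2 * (CH0 + 1) * L) hyp.meas
      (by linarith) hL hL1 hU1 hU12 hU2' (by positivity) hHb k3 k2 k5 hκ b12 (by positivity)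
      ε hε (by
        refine le_trans (le_of_eq ?_) (zero_le (a := ENNReal.ofReal (L ^ (-(4 : ℝ)))))
        refine measure_mono_null ?_ NZ_null
        rintro τ ⟨q1, q2⟩
        rw [abs_le] at q1
        refine ⟨by linarith [q1.1], fun hc => ?_⟩
        have q3 := hHb τ (by linarith [q1.1]) (by linarith [q1.2]) hc
        have q4 : ε * H τ ≤ |H τ| := by
          rcases hε with h | h <;> rw [h]
          · rw [one_mul]; exact le_abs_self _
          · rw [neg_one_mul]; exact neg_le_abs _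
        linarith)
    exact h3.trans (Kg_a hκ13 hCH0 hL1 hC3 hKg)
  have hvol := GK_vol (W := W) (F := FH H U1 U2 B) (T := T) (L := L) (ε := ε)
    (cR := c1 / 32 * V) (δ := δ) (A := A) (B' := B')
    (IW := IW) (II := II) (Kg := Kg) (Q := Q) (N0v := N0 P r Q) (J := J)
    hWc hFc hW0 hFB (by linarith) hAB (by linarith) (by positivity) hIW hII hkey
    (fun t => hWB P r Q (yc r (fun _ => φ0)) hPp hr hQ1
      (fun S hS => (norm_yc r (fun _ => φ0) hr (FS_sub hS)).le) t)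
    hJ1 hWV2 hIWg h8 (by linarith)
  refine ⟨GK (FH H U1 U2 B) T L ε (c1 / 32 * V) δ A B',
    GK_meas hFc _ _ _ _ _ _ _, fun t ht => ⟨ht.1, ht.2.1⟩, ?_,
    fun t ht => ⟨ht.2.2.1, fun s hs hst => ?_⟩⟩
  · refine vol_fin (by linarith) hcη ?_
    refine hvol.trans ?_
    have hv0 : 0 ≤ (volume (GK (FH H U1 U2 B) T L ε (c1 / 32 * V) δ A B')).toReal :=
      ENNReal.toReal_nonneg
    exact mul_le_mul_of_nonneg_right (mul_le_mul_of_nonneg_right b11 hQ0.le) hv0
  · by_contra hcon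
    push Not at hcon
    have := ht.2.2.2 s (by rw [Finset.mem_filter]; exact ⟨hs, hcon.le⟩)
    linarith

end

end Pool.Agent.Y746.OJ
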