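import Pool.Agent.Y746.OJ.A3

set_option autoImplicit false

/-! Assembly, part 4: large sets of large values. -/

namespace Pool.Agent.Y746.OJ

open Finset Filter Topology MeasureTheory
open H370 (zset mult NN Zf zz)
open Pool.Agent.Y746.OM

noncomputable section

/-- the set of large values -/
def LS (H : ℝ → ℝ) (ε V C T : ℝ) : Set ℝ :=
  {τ : ℝ | T ≤ τ ∧ τ ≤ 2 * T ∧ V < ε * H τ ∧ NearL C τ ∧ NZ τ}

theorem fin4 {H : ℝ → ℝ} {a : ℝ → ℕ → ℝ} {w : ℝ → ℝ} {s0 ψ : ℝ} (hyp : HypF H a w s0 ψ)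
    (hFd : S_Fd) (hKER : S_KER) (hPR : S_PR) (hRK : S_RK2) (hWB : S_WB)
    (η : ℝ) (hη : 0 < η) : ∃ c C T0 : ℝ, 0 < c ∧ 0 < C ∧ 10 ≤ T0 ∧ ∀ T : ℝ, T0 ≤ T →
    ∀ ε : ℝ, (ε = 1 ∨ ε = -1) → ENNReal.ofReal (T ^ (1 - η)) ≤
      volume (LS H ε (c * (w T * Real.sqrt (Real.log T / Real.log (Real.log T)))) C T) := by
  obtain ⟨c0, C5, CH, T1, hc0, hC5, hCH, hT1, hcore⟩ := core hyp hFd hKER hPR hRK hWB (η / 4)
    (by positivity)
  obtain ⟨CK, hCK, hKER⟩ := hKER
  obtain ⟨T7, hwp⟩ := hyp.wpos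
  have hll : Tendsto (fun T : ℝ => Real.log (Real.log T)) atTop atTop :=
    Real.tendsto_log_atTop.comp Real.tendsto_log_atTop
  have ev1 := hyp.dom ((33 * CH + 1) * (2 / c0)) (by positivity)
  have ev3 := hll.eventually_ge_atTop 1
  have ev4 := Real.tendsto_log_atTop.eventually (eventually_ge_atTop 3)
  have ev5 : ∀ᶠ T : ℝ in atTop, 8 * Real.log (Real.log T) ≤ Real.log T := by
    have h1 := Real.isLittleO_log_id_atTop.bound (show (0 : ℝ) < 1 / 8 by norm_num)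
    have h2 := Real.tendsto_log_atTop.eventually h1
    filter_upwards [h2, ev3, ev4] with T a1 a2 a3
    simp only [id_eq] at a1
    rw [Real.norm_of_nonneg (by linarith), Real.norm_of_nonneg (by linarith)] at a1
    linarith
  have ev6 : ∀ᶠ T : ℝ in atTop, 2 * (Real.log T) ^ 5 < T ^ (η / 2) := by
    have h1 : (fun x : ℝ => Real.log x ^ (5 : ℝ)) =o[atTop] fun x => x ^ (η / 2) :=
      isLittleO_log_rpow_rpow_atTop 5 (by positivity)
    have h2 := h1.bound (show (0 : ℝ) < 1 / 4 by norm_num)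
    filter_upwards [h2, eventually_ge_atTop 1] with T a1 a3
    have a4 := Real.log_nonneg a3
    rw [Real.norm_of_nonneg (by positivity), Real.norm_of_nonneg (by positivity)] at a1
    have e4 : Real.log T ^ (5 : ℝ) = Real.log T ^ 5 := by
      rw [← Real.rpow_natCast]; norm_num
    rw [e4] at a1
    have : 0 < T ^ (η / 2) := by positivity
    linarith
  obtain ⟨T5, hT5⟩ := eventually_atTop.1 (ev1.and (ev3.and (ev4.and (ev5.and ev6))))
  refine ⟨c0 / 26, 2 * C5, max (max T1 T7) T5, by positivity, by positivity,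
    hT1.trans ((le_max_left _ _).trans (le_max_left _ _)), fun T hT ε hε => ?_⟩
  obtain ⟨b1, b3, b4, b5, b6⟩ := hT5 T ((le_max_right _ _).trans hT)
  have hTT := (le_max_left _ _).trans hT
  have hTT1 : T1 ≤ T := (le_max_left _ _).trans hTT
  have hw := hwp T ((le_max_right _ _).trans hTT)
  have hT10 : 10 ≤ T := hT1.trans hTT1
  have hT0 : 0 < T := by linarith
  obtain ⟨hHb, U1, U2, hU1, hU1', hU2, hU2', hcore⟩ := hcore T hTT1
  set L := Real.log T with hL
  set LL := Real.log L with hLL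
  set B := 8 * LL with hB
  obtain ⟨-, k2, k3, -, k5, -, -, k8, k9, k10, -⟩ := hKER B (by linarith)
  set κ := ∫ x : ℝ, KR B x with hκ
  set R := Real.sqrt (L / LL) with hR
  have hL0 : 0 < L := by linarith
  have hR0 : 0 < R := Real.sqrt_pos.2 (div_pos hL0 (by linarith))
  set V := w T * R with hV
  have hV0 : 0 < V := mul_pos hw hR0
  have hκ0 : 0 ≤ κ := integral_nonneg fun x => (k2 x).1
  have hκ13 : κ ≤ 13 := kap_le k8 (k9 1).2
  have hbig : 33 * CH < c0 / 2 * V := by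
    have q1 : (33 * CH + 1) * (2 / c0) ≤ V := by
      have : 0 ≤ (33 * CH + 1) * (2 / c0) * L ^ (1 / 3 : ℝ) * LL ^ 3 := by
        have : 0 ≤ LL := by linarith
        positivity
      linarith
    have q2 := mul_le_mul_of_nonneg_left q1 (show 0 ≤ c0 / 2 by positivity)
    have q3 : c0 / 2 * ((33 * CH + 1) * (2 / c0)) = 33 * CH + 1 := by field_simp
    linarith
  have hU12 : U1 ≤ U2 := by linarith
  -- the inclusion, common part
  have hloc : ∀ t τ : ℝ, T + 6 * L ≤ t → t ≤ 2 * T - 6 * L → |τ - t| ≤ L →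
      (∀ s ∈ Zf riemannZeta T (2 * T), |s.im - t| ≤ 3 * L →
          |s.re - 1 / 2| ≤ C5 / Real.sqrt (L * LL)) →
      T ≤ τ ∧ τ ≤ 2 * T ∧ NearL (2 * C5) τ := by
    intro t τ t1 t2 t3 t4
    rw [abs_le] at t3
    have r1 : T ≤ τ := by linarith [t3.1]
    have r2 : τ ≤ 2 * T := by linarith [t3.2]
    refine ⟨r1, r2, near_of hT10 b3 r1 r2 hC5 fun ρ q1 q2 q3 q4 => ?_⟩
    rw [← hL] at q4
    rw [abs_le] at q4
    apply t4 ρ
    · rw [H370.mem_Zf H370.good_zeta (by linarith)]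
      exact ⟨q1, q2, by linarith [q4.1, t3.1], by linarith [q4.2, t3.2], q3⟩
    · rw [abs_le]
      constructor
      · linarith [q4.1, t3.1]
      · linarith [q4.2, t3.2]
  obtain ⟨G, hGm, hGs, hGv, hG⟩ := hcore ε hε
  set M : ℝ := c0 / 26 * V with hM
  have hM0 : 0 ≤ M := by positivity
  set E : Set ℝ := {τ : ℝ | T ≤ τ ∧ τ ≤ 2 * T ∧ M < ε * H τ ∧ NearL (2 * C5) τ} with hE
  have hEle : volume E ≤ volume (LS H ε M (2 * C5) T) := by
    have h1 : E ⊆ LS H ε M (2 * C5) T ∪ {y : ℝ | 1 < y ∧ ¬ NZ y} := by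
      rintro τ ⟨q1, q2, q3, q4⟩
      by_cases hz : NZ τ
      · left; exact ⟨q1, q2, q3, q4, hz⟩
      · right; exact ⟨by linarith, hz⟩
    refine (measure_mono h1).trans ((measure_union_le _ _).trans ?_)
    rw [NZ_null, add_zero]
  refine le_trans ?_ hEle
  refine vol_last (L := L) (by linarith) (by linarith) hGv ?_ b6
  refine cover_lem hGm (by linarith) (by positivity) fun t ht => ?_
  obtain ⟨ht1, ht2⟩ := hGs ht
  obtain ⟨g1, g2⟩ := hG t ht
  have hv : ENNReal.ofReal (L ^ (-(4 : ℝ))) ≤ volume {τ : ℝ | |τ - t| ≤ L ∧ M < ε * H τ} := by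
    by_contra hcon
    push Not at hcon
    have h1 := avg_le (H := H) (T := T) (U1 := U1) (U2 := U2) (B := B) (L := L)
      (CH := CH) (κ := κ) (t := t) (M := M) hyp.meas
      (by linarith) hL (by linarith) hU1 hU12 hU2' hCH hHb k3 k2 k5 hκ b5 hM0 ε hε hcon.le
    have h2 : κ * M ≤ 13 * M := mul_le_mul_of_nonneg_right hκ13 hM0
    have h3 : 13 * M = c0 / 2 * V := by rw [hM]; ring
    linarith
  refine hv.trans (measure_mono ?_)
  rintro τ ⟨q1, q2⟩
  obtain ⟨r1, r2, r3⟩ := hloc t τ ht1 ht2 q1 g2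
  refine ⟨⟨r1, r2, q2, r3⟩, ?_⟩
  rw [abs_le] at q1
  exact ⟨by linarith [q1.1], by linarith [q1.2]⟩

end

end Pool.Agent.Y746.OJ
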