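import Pool.Agent.Y746.OJ.A2

set_option autoImplicit false

/-! Assembly, part 5: the functions `J0` and `S0`. -/

namespace Pool.Agent.Y746.OJ

open Finset Filter Topology MeasureTheory
open H370 (zset mult NN Zf zz)
open Pool.Agent.Y746.OM

noncomputable section

lemma zeta_meas : Measurable riemannZeta := by
  refine measurable_of_continuousOn_compl_singleton 1 fun s hs => ?_
  exact (differentiableAt_riemannZeta hs).continuousAt.continuousWithinAt

lemma pt_meas : Measurable fun p : ℝ × ℝ => pt p.2 p.1 := by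
  unfold pt
  fun_prop

lemma J0_meas : Measurable J0 := by
  have h1 : StronglyMeasurable fun p : ℝ × ℝ => Real.log ‖riemannZeta (pt p.2 p.1)‖ :=
    (Real.measurable_log.comp (zeta_meas.comp pt_meas).norm).stronglyMeasurable
  have h2 : StronglyMeasurable fun y : ℝ => ∫ σ in Set.Ioc (1 / 2 : ℝ) (3 / 2),
      Real.log ‖riemannZeta (pt σ y)‖ := h1.integral_prod_right
  have e : J0 = fun y : ℝ => ∫ σ in Set.Ioc (1 / 2 : ℝ) (3 / 2),
      Real.log ‖riemannZeta (pt σ y)‖ := by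
    funext y
    unfold J0
    rw [intervalIntegral.integral_of_le (by norm_num)]
  rw [e]
  exact h2.measurable

lemma S0_meas : Measurable S0 := by
  have h1 : StronglyMeasurable fun p : ℝ × ℝ => (LD (pt p.2 p.1)).im := by
    have : Measurable LD := by
      unfold LD
      exact (measurable_deriv riemannZeta).div zeta_meas
    exact (Complex.measurable_im.comp (this.comp pt_meas)).stronglyMeasurable
  have h2 : StronglyMeasurable fun y : ℝ => ∫ σ in Set.Ioc (1 / 2 : ℝ) (3 / 2),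
      (LD (pt σ y)).im := h1.integral_prod_right
  have e : S0 = fun y : ℝ => -(1 / Real.pi) * ∫ σ in Set.Ioc (1 / 2 : ℝ) (3 / 2),
      (LD (pt σ y)).im := by
    funext y
    unfold S0
    rw [intervalIntegral.integral_of_le (by norm_num)]
  rw [e]
  exact h2.measurable.const_mul _

lemma GB_bounds (hKER : S_KER) : ∀ᶠ T : ℝ in atTop,
    (∀ n : ℕ, 0 ≤ GB (8 * Real.log (Real.log T)) n ∧
      GB (8 * Real.log (Real.log T)) n ≤ Real.sqrt (2 * Real.pi)) ∧
    ∀ p : ℕ, Real.log T ≤ p → (p : ℝ) ≤ (Real.log T) ^ 2 → p.Prime →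
      1 / 10 ≤ GB (8 * Real.log (Real.log T)) p ∧ 1 ≤ Real.log p ∧
      Real.log p ≤ 2 * Real.log (Real.log T) := by
  obtain ⟨CK, hCK, hKER⟩ := hKER
  have hll : Tendsto (fun T : ℝ => Real.log (Real.log T)) atTop atTop :=
    Real.tendsto_log_atTop.comp Real.tendsto_log_atTop
  filter_upwards [hll.eventually_ge_atTop 1, Real.tendsto_log_atTop.eventually_ge_atTop 3] with T h1 h2
  obtain ⟨-, -, -, -, -, -, -, -, k9, k10, k11⟩ := hKER (8 * Real.log (Real.log T)) (by linarith)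
  refine ⟨k9, fun p hp1 hp2 _ => ?_⟩
  have hp0 : (0 : ℝ) < p := by linarith
  have g1 : 1 ≤ Real.log p := by
    rw [Real.le_log_iff_exp_le hp0]
    linarith [Real.exp_one_lt_d9]
  have g2 : Real.log p ≤ 2 * Real.log (Real.log T) := by
    have := Real.log_le_log hp0 hp2
    rw [Real.log_pow] at this
    exact_mod_cast this
  exact ⟨k11 p g1 (by linarith), g1, g2⟩

lemma s2pi : 2 ≤ Real.sqrt (2 * Real.pi) ∧ Real.sqrt (2 * Real.pi) ≤ 3 := by
  constructor
  · apply Real.le_sqrt_of_sq_le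
    have := Real.pi_gt_three
    linarith
  · rw [Real.sqrt_le_left (by norm_num)]
    have := Real.pi_lt_d2
    norm_num
    linarith

/-- the coefficients for `J0 / 4` -/
def aJ (T : ℝ) (n : ℕ) : ℝ := Real.sqrt (2 * Real.pi) / 4 *
  (ArithmeticFunction.vonMangoldt n / (Real.sqrt n * Real.log n ^ 2) *
    GB (8 * Real.log (Real.log T)) n)

/-- the coefficients for `S0` -/
def aS (T : ℝ) (n : ℕ) : ℝ := Real.sqrt (2 * Real.pi) / Real.pi *
  (ArithmeticFunction.vonMangoldt n / (Real.sqrt n * Real.log n) *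
    GB (8 * Real.log (Real.log T)) n)

lemma aJ_zero (T : ℝ) (n : ℕ) (h : ¬ IsPrimePow n) : aJ T n = 0 := by
  have h1 : ArithmeticFunction.vonMangoldt n = 0 := by
    by_contra hc
    exact h (ArithmeticFunction.vonMangoldt_ne_zero_iff.1 hc)
  unfold aJ
  rw [h1]; simp

lemma aS_zero (T : ℝ) (n : ℕ) (h : ¬ IsPrimePow n) : aS T n = 0 := by
  have h1 : ArithmeticFunction.vonMangoldt n = 0 := by
    by_contra hc
    exact h (ArithmeticFunction.vonMangoldt_ne_zero_iff.1 hc)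
  unfold aS
  rw [h1]; simp

lemma log_ge {n : ℕ} (hn : 2 ≤ n) : 1 / 2 ≤ Real.log n := by
  have h1 : Real.log 2 ≤ Real.log n := Real.log_le_log (by norm_num) (by exact_mod_cast hn)
  have := Real.log_two_gt_d9
  linarith

lemma aJ_le {T : ℝ} (hG : ∀ n : ℕ, 0 ≤ GB (8 * Real.log (Real.log T)) n ∧
      GB (8 * Real.log (Real.log T)) n ≤ Real.sqrt (2 * Real.pi)) {n : ℕ} (hn : 2 ≤ n) :
    |aJ T n| ≤ 6 := by
  obtain ⟨s1, s2⟩ := s2pi
  have hl := log_ge hn
  have hl0 : 0 < Real.log n := by linarith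
  have h0 : 0 ≤ ArithmeticFunction.vonMangoldt n := ArithmeticFunction.vonMangoldt_nonneg
  have h1 := ArithmeticFunction.vonMangoldt_le_log (n := n)
  have hs : 1 ≤ Real.sqrt n := by
    rw [Real.one_le_sqrt]; exact_mod_cast (by omega : 1 ≤ n)
  obtain ⟨g0, g1⟩ := hG n
  have g2 : GB (8 * Real.log (Real.log T)) n ≤ 3 := g1.trans s2
  unfold aJ
  rw [abs_of_nonneg (by positivity)]
  have h2 : ArithmeticFunction.vonMangoldt n / (Real.sqrt n * Real.log n ^ 2) ≤ 2 := by
    rw [div_le_iff₀ (by positivity)]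
    have : Real.log n ≤ 2 * (1 * Real.log n ^ 2) := by nlinarith
    calc ArithmeticFunction.vonMangoldt n ≤ Real.log n := h1
      _ ≤ 2 * (1 * Real.log n ^ 2) := this
      _ ≤ 2 * (Real.sqrt n * Real.log n ^ 2) := by gcongr
  calc Real.sqrt (2 * Real.pi) / 4 * (ArithmeticFunction.vonMangoldt n /
        (Real.sqrt n * Real.log n ^ 2) * GB (8 * Real.log (Real.log T)) n) ≤
      3 / 4 * (2 * 3) := by gcongr
    _ ≤ 6 := by norm_num

lemma aS_le {T : ℝ} (hG : ∀ n : ℕ, 0 ≤ GB (8 * Real.log (Real.log T)) n ∧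
      GB (8 * Real.log (Real.log T)) n ≤ Real.sqrt (2 * Real.pi)) {n : ℕ} (hn : 2 ≤ n) :
    |aS T n| ≤ 6 := by
  obtain ⟨s1, s2⟩ := s2pi
  have hl := log_ge hn
  have hl0 : 0 < Real.log n := by linarith
  have h0 : 0 ≤ ArithmeticFunction.vonMangoldt n := ArithmeticFunction.vonMangoldt_nonneg
  have h1 := ArithmeticFunction.vonMangoldt_le_log (n := n)
  have hs : 1 ≤ Real.sqrt n := by
    rw [Real.one_le_sqrt]; exact_mod_cast (by omega : 1 ≤ n)
  obtain ⟨g0, g1⟩ := hG n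
  have g2 : GB (8 * Real.log (Real.log T)) n ≤ 3 := g1.trans s2
  have hpi := Real.pi_gt_three
  have hpi0 := Real.pi_pos
  unfold aS
  rw [abs_of_nonneg (by positivity)]
  have h2 : ArithmeticFunction.vonMangoldt n / (Real.sqrt n * Real.log n) ≤ 1 := by
    rw [div_le_one (by positivity)]
    calc ArithmeticFunction.vonMangoldt n ≤ Real.log n := h1
      _ = 1 * Real.log n := (one_mul _).symm
      _ ≤ Real.sqrt n * Real.log n := by gcongr
  have h3 : Real.sqrt (2 * Real.pi) / Real.pi ≤ 1 := by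
    rw [div_le_one hpi0]; linarith
  calc Real.sqrt (2 * Real.pi) / Real.pi * (ArithmeticFunction.vonMangoldt n /
        (Real.sqrt n * Real.log n) * GB (8 * Real.log (Real.log T)) n) ≤
      1 * (1 * 3) := by gcongr
    _ ≤ 6 := by norm_num

lemma asymJ (K : ℝ) (hK : 0 < K) : ∀ᶠ x : ℝ in atTop,
    (K + K * x ^ (1 / 3 : ℝ) * (Real.log x) ^ 3) * Real.log x ≤ Real.sqrt (x / Real.log x) := by
  have h1 : (fun x : ℝ => Real.log x ^ (5 : ℝ)) =o[atTop] fun x => x ^ (1 / 6 : ℝ) :=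
    isLittleO_log_rpow_rpow_atTop 5 (by norm_num)
  have h2 := h1.bound (show (0 : ℝ) < 1 / (2 * K) by positivity)
  have h3 := Real.tendsto_log_atTop.eventually_ge_atTop 1
  filter_upwards [h2, h3, eventually_ge_atTop 1] with x hx hl hx1
  have hx0 : 0 < x := by linarith
  rw [Real.norm_of_nonneg (by positivity), Real.norm_of_nonneg (by positivity)] at hx
  have e4 : Real.log x ^ (5 : ℝ) = Real.log x ^ 5 := by
    rw [← Real.rpow_natCast]; norm_num
  rw [e4] at hx
  set l := Real.log x with hl'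
  have hl0 : 0 < l := by linarith
  have hs : Real.sqrt x / l ≤ Real.sqrt (x / l) := by
    rw [Real.sqrt_div hx0.le]
    apply div_le_div_of_nonneg_left (Real.sqrt_nonneg _) (Real.sqrt_pos.2 hl0)
    rw [Real.sqrt_le_left hl0.le]
    nlinarith
  have h5 : (1 : ℝ) ≤ x ^ (1 / 3 : ℝ) * l ^ 3 := by
    have a1 : (1 : ℝ) ≤ x ^ (1 / 3 : ℝ) := Real.one_le_rpow hx1 (by norm_num)
    have a2 : (1 : ℝ) ≤ l ^ 3 := one_le_pow₀ hl
    nlinarith
  have h6 : x ^ (1 / 3 : ℝ) * x ^ (1 / 6 : ℝ) = Real.sqrt x := by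
    rw [← Real.rpow_add hx0, Real.sqrt_eq_rpow]; norm_num
  have h7 : K + K * x ^ (1 / 3 : ℝ) * l ^ 3 ≤ 2 * K * (x ^ (1 / 3 : ℝ) * l ^ 3) := by nlinarith
  calc (K + K * x ^ (1 / 3 : ℝ) * l ^ 3) * l ≤ 2 * K * (x ^ (1 / 3 : ℝ) * l ^ 3) * l := by gcongr
    _ = 2 * K * x ^ (1 / 3 : ℝ) * l ^ 5 / l := by field_simp
    _ ≤ 2 * K * x ^ (1 / 3 : ℝ) * (1 / (2 * K) * x ^ (1 / 6 : ℝ)) / l := by gcongr
    _ = (x ^ (1 / 3 : ℝ) * x ^ (1 / 6 : ℝ) / l) := by field_simp
    _ = (Real.sqrt x / l) := by rw [h6]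
    _ ≤ _ := hs

end

end Pool.Agent.Y746.OJ
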