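import Pool.Agent.Y746.OJ.A5

set_option autoImplicit false

/-! Assembly, part 6: the hypotheses hold for `J0 / 4` and `S0`. -/

namespace Pool.Agent.Y746.OJ

open Finset Filter Topology MeasureTheory
open H370 (zset mult NN Zf zz)
open Pool.Agent.Y746.OM

noncomputable section

/-- the statistic for `J` -/
def HJ (y : ℝ) : ℝ := J0 y / 4

lemma ZZ_le {T δ t : ℝ} (h : δ ≤ (Real.log T) ^ (-(1 / 3) : ℝ)) :
    (∑ s ∈ (Zf riemannZeta T (2 * T)).filter
        (fun s => (Real.log T) ^ (-(1 / 3) : ℝ) ≤ |s.re - 1 / 2|),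
        (mult riemannZeta s : ℝ) * Real.exp (-(s.im - t) ^ 2 / 2)) ≤ ZZd T δ t := by
  unfold ZZd
  refine Finset.sum_le_sum_of_subset_of_nonneg (fun s hs => ?_) fun s _ _ => by positivity
  rw [Finset.mem_filter] at hs ⊢
  exact ⟨hs.1, h.trans hs.2⟩

lemma dev2 (K : ℝ) (hK : 0 < K) : ∀ᶠ T : ℝ in atTop,
    K + K * (Real.log T) ^ (1 / 3 : ℝ) * (Real.log (Real.log T)) ^ 3 ≤
      1 / (80 * Real.log (Real.log T)) * Real.sqrt (Real.log T / Real.log (Real.log T)) := by
  have h1 := Real.tendsto_log_atTop.eventually (asymJ (80 * K) (by positivity))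
  have hll : Tendsto (fun T : ℝ => Real.log (Real.log T)) atTop atTop :=
    Real.tendsto_log_atTop.comp Real.tendsto_log_atTop
  filter_upwards [h1, hll.eventually_ge_atTop 1] with T a1 a2
  have h0 : 0 < Real.log (Real.log T) := by linarith
  rw [div_mul_eq_mul_div, one_mul, le_div_iff₀ (by positivity)]
  refine le_trans (le_of_eq ?_) a1
  ring

lemma dev3 (K : ℝ) (hK : 0 < K) : ∀ᶠ T : ℝ in atTop,
    K + K * (Real.log T) ^ (1 / 3 : ℝ) * (Real.log (Real.log T)) ^ 3 ≤
      1 / 20 * Real.sqrt (Real.log T / Real.log (Real.log T)) := by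
  have h1 := Real.tendsto_log_atTop.eventually (asymJ (20 * K) (by positivity))
  have hll : Tendsto (fun T : ℝ => Real.log (Real.log T)) atTop atTop :=
    Real.tendsto_log_atTop.comp Real.tendsto_log_atTop
  filter_upwards [h1, hll.eventually_ge_atTop 1, Real.tendsto_log_atTop.eventually_ge_atTop 3]
    with T a1 a2 a3
  set l := Real.log (Real.log T) with hl
  set L := Real.log T with hL
  have h0 : 0 ≤ 20 * K + 20 * K * L ^ (1 / 3 : ℝ) * l ^ 3 := by positivity
  have h2 : (20 * K + 20 * K * L ^ (1 / 3 : ℝ) * l ^ 3) * 1 ≤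
      (20 * K + 20 * K * L ^ (1 / 3 : ℝ) * l ^ 3) * l := mul_le_mul_of_nonneg_left a2 h0
  have h3 := h2.trans a1
  linarith

theorem hypJ (hKER : S_KER) (hJK : S_JK) (hBD : S_BD) :
    HypF HJ aJ (fun T => 1 / (80 * Real.log (Real.log T))) 1 0 where
  meas := J0_meas.div_const 4
  bd := by
    obtain ⟨C, hC, h⟩ := hBD
    refine ⟨C, hC, fun y hy hz => ?_⟩
    have h1 := (h y hy hz).1
    unfold HJ
    rw [abs_div, abs_of_pos (by norm_num : (0 : ℝ) < 4)]
    have := abs_nonneg (J0 y)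
    linarith
  sgn := Or.inl rfl
  form := by
    obtain ⟨C, T0, hC, hT0, h⟩ := hJK
    refine ⟨C, T0, hC, hT0, fun T hT => ?_⟩
    obtain ⟨U1, U2, h1, h2, h3, h4, h5⟩ := h T hT
    refine ⟨U1, U2, h1, h2, h3, h4, fun t ht1 ht2 δ hδ0 hδ => ?_⟩
    have h6 := h5 t ht1 ht2
    have hL : 0 ≤ Real.log T := Real.log_nonneg (by linarith)
    have h7 := ZZ_le (t := t) hδ
    have e1 : FH HJ U1 U2 (8 * Real.log (Real.log T)) t =
        1 / 4 * ∫ y in U1..U2, J0 y * KR (8 * Real.log (Real.log T)) (y - t) := by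
      unfold FH HJ
      rw [← intervalIntegral.integral_const_mul]
      refine intervalIntegral.integral_congr fun y _ => ?_
      show J0 y / 4 * KR (8 * Real.log (Real.log T)) (y - t) =
        1 / 4 * (J0 y * KR (8 * Real.log (Real.log T)) (y - t))
      ring
    have e2 : DK (aJ T) ⌊T ^ (1 / 8 : ℝ)⌋₊ 0 t = 1 / 4 * (Real.sqrt (2 * Real.pi) *
        ∑ n ∈ Icc 2 ⌊T ^ (1 / 8 : ℝ)⌋₊,
          ArithmeticFunction.vonMangoldt n / (Real.sqrt n * Real.log n ^ 2) *
            GB (8 * Real.log (Real.log T)) n * Real.cos (t * Real.log n)) := by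
      unfold DK aJ
      rw [Finset.mul_sum, Finset.mul_sum]
      refine Finset.sum_congr rfl fun n _ => ?_
      rw [sub_zero]
      ring
    rw [e1, e2, one_mul, ← mul_sub, abs_mul, abs_of_pos (by norm_num : (0 : ℝ) < 1 / 4)]
    set Z := ∑ s ∈ (Zf riemannZeta T (2 * T)).filter
        (fun s => (Real.log T) ^ (-(1 / 3) : ℝ) ≤ |s.re - 1 / 2|),
        (mult riemannZeta s : ℝ) * Real.exp (-(s.im - t) ^ 2 / 2) with hZ
    have h8 : C * Real.log T ^ 5 * Z ≤ C * Real.log T ^ 5 * ZZd T δ t :=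
      mul_le_mul_of_nonneg_left h7 (by positivity)
    have h9 : 0 ≤ C * ((1 + δ ^ 2 * Real.log T) * Real.log (Real.log T) ^ 2) := by positivity
    have h10 := abs_nonneg ((∫ y in U1..U2, J0 y * KR (8 * Real.log (Real.log T)) (y - t)) -
        Real.sqrt (2 * Real.pi) * ∑ n ∈ Icc 2 ⌊T ^ (1 / 8 : ℝ)⌋₊,
          ArithmeticFunction.vonMangoldt n / (Real.sqrt n * Real.log n ^ 2) *
            GB (8 * Real.log (Real.log T)) n * Real.cos (t * Real.log n))
    have h11 : C * Real.log T ^ (1 / 3 : ℝ) * Real.log (Real.log T) ^ 3 =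
      C * (Real.log T ^ (1 / 3 : ℝ) * Real.log (Real.log T) ^ 3) := by ring
    rw [h11] at h6
    rw [mul_add C (Real.log T ^ (1 / 3 : ℝ) * Real.log (Real.log T) ^ 3)
        ((1 + δ ^ 2 * Real.log T) * Real.log (Real.log T) ^ 2)]
    linarith
  coef := by
    obtain ⟨T0, hT0⟩ := eventually_atTop.1 ((GB_bounds hKER).and
      ((Real.tendsto_log_atTop.comp Real.tendsto_log_atTop).eventually_ge_atTop 1))
    refine ⟨T0, fun T hT => ?_⟩
    obtain ⟨⟨hG, hG2⟩, hll⟩ := hT0 T hT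
    refine ⟨fun n hn => aJ_le hG (Finset.mem_Icc.1 hn).1, aJ_zero T, fun p hp h1 h2 => ?_⟩
    obtain ⟨g1, g2, g3⟩ := hG2 p h1 h2 hp
    obtain ⟨s1, s2⟩ := s2pi
    have hll' : 1 ≤ Real.log (Real.log T) := hll
    have hp0 : (0 : ℝ) < p := by exact_mod_cast hp.pos
    have hsp : 0 < Real.sqrt p := Real.sqrt_pos.2 hp0
    have hl0 : 0 < Real.log p := by linarith
    unfold aJ
    rw [ArithmeticFunction.vonMangoldt_apply_prime hp]
    have e1 : Real.sqrt (2 * Real.pi) / 4 * (Real.log p / (Real.sqrt p * Real.log p ^ 2) *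
        GB (8 * Real.log (Real.log T)) p) = Real.sqrt (2 * Real.pi) / 4 *
        GB (8 * Real.log (Real.log T)) p / Real.log p / Real.sqrt p := by
      field_simp
    rw [e1]
    apply div_le_div_of_nonneg_right _ hsp.le
    calc 1 / (80 * Real.log (Real.log T)) ≤ (2 / 4 * (1 / 10)) / (2 * Real.log (Real.log T)) := by
          rw [div_le_div_iff₀ (by positivity) (by positivity)]
          nlinarith
      _ ≤ Real.sqrt (2 * Real.pi) / 4 * GB (8 * Real.log (Real.log T)) p / Real.log p := by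
          gcongr
  wpos := by
    obtain ⟨T0, hT0⟩ := eventually_atTop.1
      ((Real.tendsto_log_atTop.comp Real.tendsto_log_atTop).eventually_ge_atTop 1)
    refine ⟨T0, fun T hT => ?_⟩
    have h1 : 1 ≤ Real.log (Real.log T) := hT0 T hT
    positivity
  dom := dev2

theorem hypS (hKER : S_KER) (hSK : S_SK) (hBD : S_BD) :
    HypF S0 aS (fun _ => 1 / 20) (-1) (Real.pi / 2) where
  meas := S0_meas
  bd := by
    obtain ⟨C, hC, h⟩ := hBD
    exact ⟨C, hC, fun y hy hz => (h y hy hz).2⟩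
  sgn := Or.inr rfl
  form := by
    obtain ⟨C, T0, hC, hT0, h⟩ := hSK
    refine ⟨C, T0, hC, hT0, fun T hT => ?_⟩
    obtain ⟨U1, U2, h1, h2, h3, h4, h5⟩ := h T hT
    refine ⟨U1, U2, h1, h2, h3, h4, fun t ht1 ht2 δ hδ0 hδ => ?_⟩
    have h6 := h5 t ht1 ht2 δ hδ0 hδ
    have e2 : -1 * DK (aS T) ⌊T ^ (1 / 8 : ℝ)⌋₊ (Real.pi / 2) t =
        -(Real.sqrt (2 * Real.pi) / Real.pi * ∑ n ∈ Icc 2 ⌊T ^ (1 / 8 : ℝ)⌋₊,
          ArithmeticFunction.vonMangoldt n / (Real.sqrt n * Real.log n) *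
            GB (8 * Real.log (Real.log T)) n * Real.sin (t * Real.log n)) := by
      unfold DK aS
      rw [neg_one_mul, Finset.mul_sum]
      congr 1
      refine Finset.sum_congr rfl fun n _ => ?_
      rw [Real.cos_sub_pi_div_two]
      ring
    rw [e2, sub_neg_eq_add]
    unfold FH
    have hL : 0 ≤ Real.log T := Real.log_nonneg (by linarith)
    have hll : 0 ≤ Real.log T ^ (1 / 3 : ℝ) * Real.log (Real.log T) ^ 3 ∨
      Real.log T ^ (1 / 3 : ℝ) * Real.log (Real.log T) ^ 3 < 0 := le_or_gt _ _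
    rcases hll with hll | hll
    · refine h6.trans ?_
      rw [mul_add C (Real.log T ^ (1 / 3 : ℝ) * Real.log (Real.log T) ^ 3)
        ((1 + δ ^ 2 * Real.log T) * Real.log (Real.log T) ^ 2)]
      have h9 : 0 ≤ C * (Real.log T ^ (1 / 3 : ℝ) * Real.log (Real.log T) ^ 3) := by positivity
      have e3 : C * (1 + δ ^ 2 * Real.log T) * Real.log (Real.log T) ^ 2 =
        C * ((1 + δ ^ 2 * Real.log T) * Real.log (Real.log T) ^ 2) := by ring
      rw [e3]
      have e4 : ZZd T δ t = ∑ s ∈ (Zf riemannZeta T (2 * T)).filter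
        (fun s => δ ≤ |s.re - 1 / 2|),
        (mult riemannZeta s : ℝ) * Real.exp (-(s.im - t) ^ 2 / 2) := rfl
      rw [e4]
      linarith
    · exfalso
      have hlog : 0 ≤ Real.log (Real.log T) := by
        apply Real.log_nonneg
        rw [Real.le_log_iff_exp_le (by linarith)]
        linarith [Real.exp_one_lt_d9]
      have : 0 ≤ Real.log T ^ (1 / 3 : ℝ) * Real.log (Real.log T) ^ 3 := by positivity
      linarith
  coef := by
    obtain ⟨T0, hT0⟩ := eventually_atTop.1 (GB_bounds hKER)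
    refine ⟨T0, fun T hT => ?_⟩
    obtain ⟨hG, hG2⟩ := hT0 T hT
    refine ⟨fun n hn => aS_le hG (Finset.mem_Icc.1 hn).1, aS_zero T, fun p hp h1 h2 => ?_⟩
    obtain ⟨g1, g2, g3⟩ := hG2 p h1 h2 hp
    obtain ⟨s1, s2⟩ := s2pi
    have hp0 : (0 : ℝ) < p := by exact_mod_cast hp.pos
    have hsp : 0 < Real.sqrt p := Real.sqrt_pos.2 hp0
    have hl0 : 0 < Real.log p := by linarith
    have hpi := Real.pi_lt_d2
    have hpi0 := Real.pi_pos
    unfold aS
    rw [ArithmeticFunction.vonMangoldt_apply_prime hp]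
    have e1 : Real.sqrt (2 * Real.pi) / Real.pi * (Real.log p / (Real.sqrt p * Real.log p) *
        GB (8 * Real.log (Real.log T)) p) = Real.sqrt (2 * Real.pi) / Real.pi *
        GB (8 * Real.log (Real.log T)) p / Real.sqrt p := by
      field_simp
    rw [e1]
    apply div_le_div_of_nonneg_right _ hsp.le
    have h3 : 1 / 2 ≤ Real.sqrt (2 * Real.pi) / Real.pi := by
      rw [div_le_div_iff₀ (by norm_num) hpi0]; linarith
    calc (1 : ℝ) / 20 = 1 / 2 * (1 / 10) := by norm_num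
      _ ≤ Real.sqrt (2 * Real.pi) / Real.pi * GB (8 * Real.log (Real.log T)) p := by gcongr
  wpos := ⟨0, fun _ _ => by norm_num⟩
  dom := dev3

end

end Pool.Agent.Y746.OJ
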