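import Pool.Agent.Y746.OJ.A4
import Pool.Agent.Y746.OJ.A6

set_option autoImplicit false

/-! Assembly, part 7: the theorem. -/

namespace Pool.Agent.Y746.OJ

open Finset Filter Topology MeasureTheory
open H370 (zset mult NN Zf zz)
open Pool.Agent.Y746.OM

noncomputable section

/-- the order of the large values of `S` -/
def oS (t : ℝ) : ℝ := Real.sqrt (Real.log t / Real.log (Real.log t))

/-- the order of the large values of `J` -/
def oJ (t : ℝ) : ℝ := Real.sqrt (Real.log t) / (Real.log (Real.log t)) ^ (3 / 2 : ℝ)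

lemma oJ_eq {t : ℝ} (h1 : 0 < Real.log t) (h2 : 0 < Real.log (Real.log t)) :
    oJ t = 1 / Real.log (Real.log t) * oS t := by
  unfold oJ oS
  rw [Real.sqrt_div h1.le, Real.sqrt_eq_rpow (Real.log (Real.log t))]
  have e : Real.log (Real.log t) ^ (3 / 2 : ℝ) = Real.log (Real.log t) *
      Real.log (Real.log t) ^ (1 / 2 : ℝ) := by
    nth_rewrite 2 [← Real.rpow_one (Real.log (Real.log t))]
    rw [← Real.rpow_add h2]; norm_num
  rw [e]
  have : 0 < Real.log (Real.log t) ^ (1 / 2 : ℝ) := by positivity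
  field_simp

/-- the set of large values -/
def LV (F o : ℝ → ℝ) (ε c C T : ℝ) : Set ℝ :=
  {t : ℝ | T ≤ t ∧ t ≤ 2 * T ∧ c * o t ≤ ε * F t ∧ NearL C t ∧ NZ t}

/-- the theorem -/
def S_FIN : Prop := ∀ η : ℝ, 0 < η → ∃ c C T0 : ℝ, 0 < c ∧ 0 < C ∧ ∀ T : ℝ, T0 ≤ T →
  ∀ ε : ℝ, (ε = 1 ∨ ε = -1) →
    ENNReal.ofReal (T ^ (1 - η)) ≤ volume (LV S oS ε c C T) ∧
    ENNReal.ofReal (T ^ (1 - η)) ≤ volume (LV J oJ ε c C T)

lemma comp_o {T τ : ℝ} (hT : 10 ≤ T) (hLL : 1 ≤ Real.log (Real.log T)) (h1 : T ≤ τ)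
    (h2 : τ ≤ 2 * T) : oS τ ≤ 2 * oS T ∧ oJ τ ≤ 2 * oJ T := by
  have h3 := dev_le hT hLL h1 h2
  have hT0 : 0 < T := by linarith
  have hL0 : 0 < Real.log T := Real.log_pos (by linarith)
  have a2 : Real.log T ≤ Real.log τ := Real.log_le_log hT0 h1
  have a5 : Real.log (Real.log T) ≤ Real.log (Real.log τ) := Real.log_le_log hL0 a2
  refine ⟨h3, ?_⟩
  rw [oJ_eq (by linarith) (by linarith), oJ_eq hL0 (by linarith)]
  have h4 : 1 / Real.log (Real.log τ) ≤ 1 / Real.log (Real.log T) :=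
    one_div_le_one_div_of_le (by linarith) a5
  have h5 : 0 ≤ oS τ := Real.sqrt_nonneg _
  calc 1 / Real.log (Real.log τ) * oS τ ≤ 1 / Real.log (Real.log T) * (2 * oS T) :=
        mul_le_mul h4 h3 h5 (by
          have : 0 < Real.log (Real.log T) := by linarith
          positivity)
    _ = _ := by ring

theorem fin (hKER : S_KER) (hJK : S_JK) (hSK : S_SK) (hBD : S_BD) (hINF : S_INF)
    (hFd : S_Fd) (hPR : S_PR) (hRK : S_RK2) (hWB : S_WB) : S_FIN := by
  intro η hη
  obtain ⟨c1, C1, T1, hc1, hC1, hT1, h1⟩ := fin4 (hypS hKER hSK hBD) hFd hKER hPR hRK hWB η hη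
  obtain ⟨c2, C2, T2, hc2, hC2, hT2, h2⟩ := fin4 (hypJ hKER hJK hBD) hFd hKER hPR hRK hWB η hη
  obtain ⟨K, hK, hINF⟩ := hINF
  have hll : Tendsto (fun T : ℝ => Real.log (Real.log T)) atTop atTop :=
    Real.tendsto_log_atTop.comp Real.tendsto_log_atTop
  have ev1 := dev3 (2 * K / c1) (by positivity)
  have ev2 := dev2 (K / (2 * c2)) (by positivity)
  have ev3 := hll.eventually_ge_atTop 1
  obtain ⟨T5, hT5⟩ := eventually_atTop.1 (ev1.and (ev2.and ev3))
  have hεabs : ∀ ε x : ℝ, (ε = 1 ∨ ε = -1) → ε * x ≤ |x| := by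
    intro ε x hε
    rcases hε with h | h <;> rw [h]
    · rw [one_mul]; exact le_abs_self x
    · rw [neg_one_mul]; exact neg_le_abs x
  set c : ℝ := min (c1 / 80) (c2 / 80) with hc
  have hc0 : 0 < c := lt_min (by positivity) (by positivity)
  have hcc1 : c ≤ c1 / 80 := min_le_left _ _
  have hcc2 : c ≤ c2 / 80 := min_le_right _ _
  set C : ℝ := max C1 C2 with hC
  have hNL : ∀ {D t : ℝ}, D ≤ C → NearL D t → 1 ≤ Real.log (Real.log t) → 1 ≤ Real.log t →
      NearL C t := by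
    intro D t hD hN hll hl ρ r1 r2 r3 r4
    refine (hN ρ r1 r2 r3 r4).trans ?_
    apply div_le_div_of_nonneg_right hD (Real.sqrt_nonneg _)
  refine ⟨c, C, max (max T1 T2) T5, hc0, lt_of_lt_of_le hC1 (le_max_left _ _),
    fun T hT ε hε => ?_⟩
  obtain ⟨b1, b2, b3⟩ := hT5 T ((le_max_right _ _).trans hT)
  have hTT := (le_max_left _ _).trans hT
  have hTT1 : T1 ≤ T := (le_max_left _ _).trans hTT
  have hTT2 : T2 ≤ T := (le_max_right _ _).trans hTT
  have hT10 : 10 ≤ T := hT1.trans hTT1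
  have hT0 : 0 < T := by linarith
  have hL0 : 0 < Real.log T := Real.log_pos (by linarith)
  have hpos1 : 0 ≤ 2 * K / c1 * Real.log T ^ (1 / 3 : ℝ) * Real.log (Real.log T) ^ 3 := by
    have : 0 ≤ Real.log (Real.log T) := by linarith
    positivity
  have hpos2 : 0 ≤ K / (2 * c2) * Real.log T ^ (1 / 3 : ℝ) * Real.log (Real.log T) ^ 3 := by
    have : 0 ≤ Real.log (Real.log T) := by linarith
    positivity
  have hstep : ∀ τ, T ≤ τ → τ ≤ 2 * T → 1 ≤ Real.log (Real.log τ) ∧ 1 ≤ Real.log τ := by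
    intro τ q1 q2
    have a2 : Real.log T ≤ Real.log τ := Real.log_le_log hT0 q1
    have a3 : Real.log (Real.log T) ≤ Real.log (Real.log τ) := Real.log_le_log hL0 a2
    have a4 := Real.log_le_sub_one_of_pos (show 0 < Real.log τ by linarith)
    exact ⟨by linarith, by linarith⟩
  constructor
  · refine (h1 T hTT1 ε hε).trans (measure_mono ?_)
    rintro τ ⟨q1, q2, q3, q4, q5⟩
    obtain ⟨g1, g2⟩ := hstep τ q1 q2
    refine ⟨q1, q2, ?_, hNL (le_max_left _ _) q4 g1 g2, q5⟩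
    obtain ⟨-, i2⟩ := hINF τ (by linarith) q5
    have i3 := hεabs ε (S0 τ - S τ) hε
    rw [abs_sub_comm] at i3
    have i4 : ε * S0 τ - K ≤ ε * S τ := by
      have : ε * S0 τ = ε * (S0 τ - S τ) + ε * S τ := by ring
      linarith
    have o1 := (comp_o hT10 b3 q1 q2).1
    have hoS : 0 ≤ oS T := Real.sqrt_nonneg _
    have o2 : 2 * K / c1 ≤ 1 / 20 * oS T := by
      have : 1 / 20 * Real.sqrt (Real.log T / Real.log (Real.log T)) = 1 / 20 * oS T := rfl
      rw [this] at b1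
      linarith
    have o3 : 2 * K ≤ 1 / 20 * oS T * c1 := by rwa [div_le_iff₀ hc1] at o2
    have o4 : c1 * (1 / 20 * oS T) < ε * S0 τ := q3
    have o5 : c * oS τ ≤ c1 / 80 * (2 * oS T) :=
      mul_le_mul hcc1 o1 (Real.sqrt_nonneg _) (by positivity)
    show c * oS τ ≤ ε * S τ
    linarith
  · refine (h2 T hTT2 ε hε).trans (measure_mono ?_)
    rintro τ ⟨q1, q2, q3, q4, q5⟩
    obtain ⟨g1, g2⟩ := hstep τ q1 q2
    refine ⟨q1, q2, ?_, hNL (le_max_right _ _) q4 g1 g2, q5⟩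
    obtain ⟨i2, -⟩ := hINF τ (by linarith) q5
    have i3 := hεabs ε (J0 τ - J τ) hε
    rw [abs_sub_comm] at i3
    have i4 : ε * J0 τ - K ≤ ε * J τ := by
      have : ε * J0 τ = ε * (J0 τ - J τ) + ε * J τ := by ring
      linarith
    have o1 := (comp_o hT10 b3 q1 q2).2
    have hoJ : oJ T = 1 / Real.log (Real.log T) * oS T := oJ_eq hL0 (by linarith)
    have hoS : 0 ≤ oS T := Real.sqrt_nonneg _
    have hoJ0 : 0 ≤ oJ T := by
      rw [hoJ]
      have : 0 < Real.log (Real.log T) := by linarith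
      positivity
    have e1 : 1 / (80 * Real.log (Real.log T)) * oS T = 1 / 80 * oJ T := by
      rw [hoJ]
      have : 0 < Real.log (Real.log T) := by linarith
      field_simp
    have o2 : K / (2 * c2) ≤ 1 / 80 * oJ T := by
      rw [← e1]
      have : 1 / (80 * Real.log (Real.log T)) *
        Real.sqrt (Real.log T / Real.log (Real.log T)) =
        1 / (80 * Real.log (Real.log T)) * oS T := rfl
      rw [this] at b2
      linarith
    have o3 : K ≤ 1 / 80 * oJ T * (2 * c2) := by rwa [div_le_iff₀ (by positivity)] at o2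
    have o4 : c2 * (1 / 80 * oJ T) < ε * (J0 τ / 4) := by
      have q3' : c2 * (1 / (80 * Real.log (Real.log T)) * oS T) < ε * HJ τ := q3
      rw [e1] at q3'
      exact q3'
    have o5 : c * oJ τ ≤ c2 / 80 * (2 * oJ T) := by
      have : 0 ≤ oJ τ := by
        rw [oJ_eq (by linarith) (by linarith)]
        have h1 : 0 < Real.log (Real.log τ) := by linarith
        have h2 : 0 ≤ oS τ := Real.sqrt_nonneg _
        positivity
      exact mul_le_mul hcc2 o1 this (by positivity)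
    show c * oJ τ ≤ ε * J τ
    have o6 : ε * (J0 τ / 4) = (ε * J0 τ) / 4 := by ring
    rw [o6] at o4
    linarith

end

end Pool.Agent.Y746.OJ
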