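import Pool.Agent.Y746.OM.Asm6
import Pool.Agent.Y746.OJ.A7
import Pool.Agent.Y949.OJ.CT
import Pool.Agent.Y153.OJ.LI
import Pool.Agent.Y141.OJ.JP
import Pool.Agent.Y340.OJ.BD
import Pool.Agent.Y813.OJ.Jf
import Pool.Agent.Y923.OJ.VH
import Pool.Agent.Y445.OJ.VH
import Pool.Agent.Y258.OJ.KV
import Pool.Agent.Y900.OJ.JK
import Pool.Agent.Y954.OJ.Sk

set_option autoImplicit false

/-! All together. -/

namespace Pool.Agent.Y746.OJ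

open Pool.Agent.Y746.OM (g_KER g_Fd g_PR g_RK2 g_WB)

theorem g_JF : S_JF := Pool.Agent.Y813.OJ.t_JF Pool.Agent.Y949.OJ.t_CT Pool.Agent.Y153.OJ.t_LI
  Pool.Agent.Y141.OJ.t_JP Pool.Agent.Y445.OJ.t_VH

theorem g_SF : S_SF := Pool.Agent.Y923.OJ.t_SF' Pool.Agent.Y949.OJ.t_CT Pool.Agent.Y153.OJ.t_LI

theorem g_JK : S_JK := Pool.Agent.Y900.OJ.t_JK g_JF Pool.Agent.Y258.OJ.KV.t_KV g_KER

theorem g_SK : S_SK := Pool.Agent.Y954.OJ.t_SK g_SF Pool.Agent.Y258.OJ.KV.t_KV g_KER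

theorem g_FIN : S_FIN := fin g_KER g_JK g_SK Pool.Agent.Y340.OJ.t_BD Pool.Agent.Y141.OJ.t_INF
  g_Fd g_PR g_RK2 g_WB

end Pool.Agent.Y746.OJ
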